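import Mathlib

/-! Sieve weights on sets of primes: values on multiplicative functions. -/

set_option autoImplicit false

open Finset

namespace Pool.Agent.Y882

/-- the value of the weights `c` on the multiplicative function `h` -/
noncomputable def VV (P : Finset ℕ) (c : Finset ℕ → ℝ) (h : ℕ → ℝ) : ℝ :=
  ∑ T ∈ P.powerset, c T * ∏ p ∈ T, h p

theorem VV_empty (c : Finset ℕ → ℝ) (h : ℕ → ℝ) : VV ∅ c h = c ∅ := by
  simp [VV]

theorem VV_union (P Q : Finset ℕ) (hd : Disjoint P Q) (c c' : Finset ℕ → ℝ) (h : ℕ → ℝ) :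
    VV (P ∪ Q) (fun T => c (T ∩ P) * c' (T ∩ Q)) h = VV P c h * VV Q c' h := by
  classical
  unfold VV
  rw [sum_mul_sum, ← sum_product']
  symm
  apply sum_nbij' (i := fun AB => AB.1 ∪ AB.2) (j := fun T => (T ∩ P, T ∩ Q))
  · intro AB hAB
    rw [mem_product, mem_powerset, mem_powerset] at hAB
    rw [mem_powerset]
    exact union_subset_union hAB.1 hAB.2
  · intro T _
    rw [mem_product, mem_powerset, mem_powerset]
    exact ⟨inter_subset_right, inter_subset_right⟩
  · intro AB hAB
    rw [mem_product, mem_powerset, mem_powerset] at hAB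
    obtain ⟨h1, h2⟩ := hAB
    have e1 : (AB.1 ∪ AB.2) ∩ P = AB.1 := by
      ext x
      simp only [mem_inter, mem_union]
      constructor
      · rintro ⟨h3 | h3, h4⟩
        · exact h3
        · exact absurd h4 (fun h4 => (disjoint_left.1 hd h4 (h2 h3)))
      · intro h3
        exact ⟨Or.inl h3, h1 h3⟩
    have e2 : (AB.1 ∪ AB.2) ∩ Q = AB.2 := by
      ext x
      simp only [mem_inter, mem_union]
      constructor
      · rintro ⟨h3 | h3, h4⟩
        · exact absurd h4 (fun h4 => (disjoint_left.1 hd (h1 h3) h4))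
        · exact h3
      · intro h3
        exact ⟨Or.inr h3, h2 h3⟩
    exact Prod.ext e1 e2
  · intro T hT
    rw [mem_powerset] at hT
    show T ∩ P ∪ T ∩ Q = T
    rw [← inter_union_distrib_left]
    exact inter_eq_left.2 hT
  · intro AB hAB
    rw [mem_product, mem_powerset, mem_powerset] at hAB
    obtain ⟨h1, h2⟩ := hAB
    have e1 : (AB.1 ∪ AB.2) ∩ P = AB.1 := by
      ext x
      simp only [mem_inter, mem_union]
      constructor
      · rintro ⟨h3 | h3, h4⟩
        · exact h3
        · exact absurd h4 (fun h4 => (disjoint_left.1 hd h4 (h2 h3)))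
      · intro h3
        exact ⟨Or.inl h3, h1 h3⟩
    have e2 : (AB.1 ∪ AB.2) ∩ Q = AB.2 := by
      ext x
      simp only [mem_inter, mem_union]
      constructor
      · rintro ⟨h3 | h3, h4⟩
        · exact absurd h4 (fun h4 => (disjoint_left.1 hd (h1 h3) h4))
        · exact h3
      · intro h3
        exact ⟨Or.inr h3, h2 h3⟩
    show (c AB.1 * ∏ p ∈ AB.1, h p) * (c' AB.2 * ∏ p ∈ AB.2, h p) =
      (c ((AB.1 ∪ AB.2) ∩ P) * c' ((AB.1 ∪ AB.2) ∩ Q)) * ∏ p ∈ AB.1 ∪ AB.2, h p
    rw [e1, e2, prod_union (disjoint_of_subset_left h1 (disjoint_of_subset_right h2 hd))]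
    ring

theorem VV_add (P : Finset ℕ) (c c' : Finset ℕ → ℝ) (h : ℕ → ℝ) :
    VV P (fun T => c T + c' T) h = VV P c h + VV P c' h := by
  unfold VV
  rw [← sum_add_distrib]
  exact sum_congr rfl fun T _ => by ring

theorem VV_sub (P : Finset ℕ) (c c' : Finset ℕ → ℝ) (h : ℕ → ℝ) :
    VV P (fun T => c T - c' T) h = VV P c h - VV P c' h := by
  unfold VV
  rw [← sum_sub_distrib]
  exact sum_congr rfl fun T _ => by ring

theorem VV_sum {ι : Type} (s : Finset ι) (P : Finset ℕ) (c : ι → Finset ℕ → ℝ) (h : ℕ → ℝ) :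
    VV P (fun T => ∑ i ∈ s, c i T) h = ∑ i ∈ s, VV P (c i) h := by
  unfold VV
  rw [sum_comm]
  exact sum_congr rfl fun T _ => by rw [sum_mul]

theorem VV_congr (P : Finset ℕ) (c c' : Finset ℕ → ℝ) (h : ℕ → ℝ)
    (hc : ∀ T ⊆ P, c T = c' T) : VV P c h = VV P c' h := by
  unfold VV
  exact sum_congr rfl fun T hT => by rw [hc T (mem_powerset.1 hT)]

/-- product over a family of disjoint sets -/
theorem VV_prod {ι : Type} [DecidableEq ι] (s : Finset ι) (P : ι → Finset ℕ)
    (hd : ∀ i ∈ s, ∀ j ∈ s, i ≠ j → Disjoint (P i) (P j)) (c : ι → Finset ℕ → ℝ) (h : ℕ → ℝ) :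
    VV (s.biUnion P) (fun T => ∏ i ∈ s, c i (T ∩ P i)) h = ∏ i ∈ s, VV (P i) (c i) h := by
  classical
  induction s using Finset.induction_on with
  | empty => simp [VV]
  | insert a s ha ih =>
    have ih' := ih (fun i hi j hj hij => hd i (mem_insert_of_mem hi) j (mem_insert_of_mem hj) hij)
    rw [biUnion_insert, prod_insert ha, ← ih']
    have hdis : Disjoint (P a) (s.biUnion P) := by
      rw [disjoint_biUnion_right]
      intro i hi
      exact hd a (mem_insert_self a s) i (mem_insert_of_mem hi) (fun e => ha (e ▸ hi))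
    rw [← VV_union (P a) (s.biUnion P) hdis]
    apply VV_congr
    intro T _
    rw [prod_insert ha]
    congr 1
    apply prod_congr rfl
    intro i hi
    congr 1
    rw [inter_assoc, inter_eq_right.2 (subset_biUnion_of_mem P hi)]

/-- the exact weights -/
theorem VV_mu (P : Finset ℕ) (h : ℕ → ℝ) :
    VV P (fun T => (-1) ^ T.card) h = ∏ p ∈ P, (1 - h p) := by
  classical
  unfold VV
  have h1 : ∏ p ∈ P, (1 - h p) = ∏ p ∈ P, (-h p + 1) := prod_congr rfl fun p _ => by ring
  rw [h1, prod_add]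
  apply sum_congr rfl
  intro T _
  simp only [prod_const_one, mul_one]
  rw [prod_neg]

/-- the indicator function as a multiplicative function -/
theorem prod_ind (T : Finset ℕ) (N : ℕ) :
    ∏ p ∈ T, (if p ∣ N then (1 : ℝ) else 0) = if ∀ p ∈ T, p ∣ N then 1 else 0 := by
  classical
  rw [Finset.prod_ite_zero]
  simp

end Pool.Agent.Y882
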