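import Pool.Agent.H20R2.EN.FLem
import Pool.Agent.Y882.VV

/-! The fundamental lemma (Brun-Hooley), in the form of universal weights
(after `Pool/Agent/TH423/SH/FLLP.lean`). -/

set_option autoImplicit false

open Finset

namespace Pool.Agent.Y882

open Pool.Agent.Helper112.LP Pool.Agent.Helper112.LP.Kba Pool.Agent.Helper112.LP.Kbh
open Pool.Agent.H483R2.BHKD Pool.Agent.H20R2.FL

theorem VV_filter (P : Finset ℕ) (q : Finset ℕ → Prop) [DecidablePred q] (s : Finset ℕ → ℝ)
    (h : ℕ → ℝ) : VV P (fun T => if q T then s T else 0) h =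
      ∑ T ∈ P.powerset.filter q, s T * ∏ p ∈ T, h p := by
  unfold VV
  rw [sum_filter]
  apply sum_congr rfl
  intro T _
  show (if q T then s T else 0) * ∏ p ∈ T, h p = _
  by_cases hq : q T
  · rw [if_pos hq, if_pos hq]
  · rw [if_neg hq, if_neg hq, zero_mul]

open Classical in
/-- the fundamental lemma: universal weights -/
theorem flw : ∃ C : ℕ, 1 ≤ C ∧ ∀ (κ b J z0 : ℕ) (P : Finset ℕ),
  C * (κ + 1) ≤ b → C * (κ + 1) ≤ z0 → (∀ p ∈ P, p.Prime ∧ z0 < p ∧ p ≤ 2 ^ 2 ^ J) →
  ∃ cU cL : Finset ℕ → ℝ, (∀ T, |cU T| ≤ 1 ∧ |cL T| ≤ J + 1) ∧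
    (∀ T ⊆ P, (cU T ≠ 0 ∨ cL T ≠ 0) → ∏ p ∈ T, p ≤ (2 ^ 2 ^ J) ^ (C * b)) ∧
    (∀ N : ℕ, VV P cL (fun p => if p ∣ N then 1 else 0) ≤ (if ∀ p ∈ P, ¬ p ∣ N then 1 else 0) ∧
      (if ∀ p ∈ P, ¬ p ∣ N then 1 else 0) ≤ VV P cU (fun p => if p ∣ N then 1 else 0)) ∧
    (∀ g : ℕ → ℝ, (∀ p ∈ P, 0 ≤ g p ∧ g p ≤ κ / ((p : ℝ) - 1)) →
      (1 - (1 / 2 : ℝ) ^ b) * ∏ p ∈ P, (1 - g p) ≤ VV P cL g ∧ VV P cL g ≤ VV P cU g ∧
      ∏ p ∈ P, (1 - g p) ≤ VV P cU g ∧
      VV P cU g ≤ (1 + (1 / 2 : ℝ) ^ b) * ∏ p ∈ P, (1 - g p)) := by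
  obtain ⟨CM, hCM, hM⟩ := mertens_group
  set L : ℝ := Real.log 2 + CM with hLdef
  have hlog2 : 0 < Real.log 2 := Real.log_pos (by norm_num)
  have hL0 : 0 < L := by rw [hLdef]; linarith
  have hLs : ∀ i : ℕ, ∑ l ∈ Gj (i + 1), (1 : ℝ) / l ≤ L := by
    intro i
    have h1 := (abs_le.1 (hM (i + 1) (by omega))).2
    have h2 : CM / 2 ^ (i + 1) ≤ CM := div_le_self hCM.le (one_le_pow₀ (by norm_num))
    rw [hLdef]; linarith
  obtain ⟨N1, hN1⟩ := exists_nat_ge (21 * L)
  refine ⟨N1 + 12, by omega, ?_⟩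
  intro κ b J z0 P hbC hz0C hP
  obtain ⟨N, hNdef⟩ : ∃ N : ℕ, N = N1 * κ := ⟨_, rfl⟩
  have hN : 21 * ((κ : ℝ) * L) ≤ N := by
    rw [hNdef]
    push_cast
    have := mul_le_mul_of_nonneg_right hN1 (Nat.cast_nonneg (α := ℝ) κ)
    linarith
  have hexp : (N1 + 12) * (κ + 1) = N1 * κ + N1 + 12 * κ + 12 := by ring
  have hb : N + 2 * κ + 10 ≤ b := by rw [hNdef]; omega
  have hz0 : N + 2 * κ + 10 ≤ z0 := by rw [hNdef]; omega
  have hκ0 : (0 : ℝ) ≤ κ := Nat.cast_nonneg κ
  set x0 : ℝ := 2 * (κ * L) with hx0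
  have hx00 : 0 ≤ x0 := by positivity
  set v : ℝ := Real.exp (-(2 * x0)) with hv
  have hv0 : 0 < v := Real.exp_pos _
  have hPlt : ∀ p ∈ P, p < 2 ^ 2 ^ J := by
    intro p hp
    obtain ⟨h1, h2, h3⟩ := hP p hp
    rcases lt_or_eq_of_le h3 with h | h
    · exact h
    · exfalso
      have h4 : 2 ∣ p := by rw [h]; exact dvd_pow_self 2 (by positivity)
      have h5 : p = 2 := ((Nat.prime_dvd_prime_iff_eq Nat.prime_two h1).1 h4).symm
      omega
  set bb : Fin J → ℕ := fun i => 2 * b + 2 * (J - 1 - (i : ℕ)) with hbdef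
  set Pi : Fin J → Finset ℕ := fun i => P.filter (fun p => p ∈ Gj ((i : ℕ) + 1)) with hPdef
  have hPG : ∀ i, Pi i ⊆ Gj ((i : ℕ) + 1) := fun i p hp => (mem_filter.1 hp).2
  have hPiP : ∀ i, Pi i ⊆ P := fun i => filter_subset _ _
  have hU : univ.biUnion Pi = P := by
    ext p
    rw [mem_biUnion]
    constructor
    · rintro ⟨i, _, hi⟩
      exact hPiP i hi
    · intro hp
      obtain ⟨i, hi⟩ := bh_cover (hP p hp).1 (hPlt p hp)
      exact ⟨i, mem_univ _, mem_filter.2 ⟨hp, hi⟩⟩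
  have hdis : ∀ i ∈ (univ : Finset (Fin J)), ∀ j ∈ (univ : Finset (Fin J)), i ≠ j →
      Disjoint (Pi i) (Pi j) := by
    intro i _ j _ hij
    rw [disjoint_left]
    intro l hl hl'
    exact hij (Fin.ext (bh_Gj_disj (hPG i hl) (hPG j hl')))
  have hbe : ∀ i, Even (bb i) := fun i => by
    simp only [hbdef]
    exact (even_two_mul _).add (even_two_mul _)
  have hb1 : 1 ≤ b := by omega
  -- the weights
  set al : Fin J → Finset ℕ → ℝ := fun i U => if U.card ≤ bb i then (-1) ^ U.card else 0 with hal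
  set ep : Fin J → Finset ℕ → ℝ := fun i U => if U.card = bb i + 1 then 1 else 0 with hep
  have hal1 : ∀ i U, |al i U| ≤ 1 := by
    intro i U
    simp only [hal]
    split_ifs
    · rw [abs_neg_one_pow]
    · simp
  have hep1 : ∀ i U, |ep i U| ≤ 1 := by
    intro i U
    simp only [hep]
    split_ifs <;> simp
  set cU : Finset ℕ → ℝ := fun T => ∏ i, al i (T ∩ Pi i) with hcU
  set cE : Fin J → Finset ℕ → ℝ := fun k T => ∏ i, (if i = k then ep i else al i) (T ∩ Pi i)
    with hcE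
  have hcU1 : ∀ T, |cU T| ≤ 1 := by
    intro T
    simp only [hcU]
    rw [abs_prod]
    exact prod_le_one (fun _ _ => abs_nonneg _) fun i _ => hal1 i _
  have hcE1 : ∀ k T, |cE k T| ≤ 1 := by
    intro k T
    simp only [hcE]
    rw [abs_prod]
    refine prod_le_one (fun _ _ => abs_nonneg _) fun i _ => ?_
    split_ifs
    · exact hep1 i _
    · exact hal1 i _
  have hmul2 : ∀ (k : Fin J) (f1 f2 : Fin J → ℝ), (∏ i, if i = k then f1 i else f2 i) =
      f1 k * ∏ i ∈ univ.erase k, f2 i := by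
    intro k f1 f2
    rw [← mul_prod_erase univ _ (mem_univ k), if_pos rfl]
    congr 1
    apply prod_congr rfl
    intro i hi
    rw [if_neg (ne_of_mem_erase hi)]
  have hVU : ∀ h : ℕ → ℝ, VV P cU h = ∏ i, VV (Pi i) (al i) h := by
    intro h
    have := VV_prod (univ : Finset (Fin J)) Pi hdis al h
    rw [hU] at this
    exact this
  have hVE : ∀ (k : Fin J) (h : ℕ → ℝ), VV P (cE k) h =
      VV (Pi k) (ep k) h * ∏ i ∈ univ.erase k, VV (Pi i) (al i) h := by
    intro k h
    have := VV_prod (univ : Finset (Fin J)) Pi hdis (fun i => if i = k then ep i else al i) h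
    rw [hU] at this
    simp only [hcE]
    rw [this, ← hmul2 k (fun i => VV (Pi i) (ep i) h) (fun i => VV (Pi i) (al i) h)]
    apply prod_congr rfl
    intro i _
    split_ifs <;> rfl
  refine ⟨cU, fun T => cU T - ∑ k, cE k T, ?_, ?_, ?_, ?_⟩
  · intro T
    refine ⟨hcU1 T, ?_⟩
    calc |cU T - ∑ k, cE k T| ≤ |cU T| + |∑ k, cE k T| := abs_sub _ _
      _ ≤ 1 + ∑ k : Fin J, (1 : ℝ) := by
          refine add_le_add (hcU1 T) ((abs_sum_le_sum_abs _ _).trans (sum_le_sum fun k _ => hcE1 k T))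
      _ = J + 1 := by simp; ring
  · intro T hT hne
    have hcard : ∀ i : Fin J, (T ∩ Pi i).card ≤ 2 * b + 2 * (J - 1 - (i : ℕ)) + 1 := by
      intro i
      by_contra hcon
      push Not at hcon
      have hz : ∀ k, (if i = k then ep i else al i) (T ∩ Pi i) = 0 := by
        intro k
        split_ifs
        · simp only [hep]; rw [if_neg (by simp only [hbdef]; omega)]
        · simp only [hal]; rw [if_neg (by simp only [hbdef]; omega)]
      have hza : al i (T ∩ Pi i) = 0 := by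
        simp only [hal]; rw [if_neg (by simp only [hbdef]; omega)]
      have h1 : cU T = 0 := by
        simp only [hcU]
        exact prod_eq_zero (mem_univ i) hza
      have h2 : ∀ k, cE k T = 0 := by
        intro k
        simp only [hcE]
        exact prod_eq_zero (mem_univ i) (hz k)
      rcases hne with h | h
      · exact h h1
      · apply h
        show cU T - ∑ k, cE k T = 0
        rw [h1, sum_eq_zero fun k _ => h2 k, sub_zero]
    have hTG : ∀ i, T ∩ Pi i ⊆ Gj ((i : ℕ) + 1) := fun i => inter_subset_right.trans (hPG i)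
    have h3 := bh_level (b0 := 2 * b) (fun i => T ∩ Pi i) hTG hcard
    have h4 : bhU (fun i => T ∩ Pi i) = T := by
      unfold bhU
      ext p
      rw [mem_biUnion]
      constructor
      · rintro ⟨i, _, hi⟩
        exact (mem_inter.1 hi).1
      · intro hp
        have h5 := hT hp
        rw [← hU, mem_biUnion] at h5
        obtain ⟨i, _, hi⟩ := h5
        exact ⟨i, mem_univ _, mem_inter.2 ⟨hp, hi⟩⟩
    rw [h4] at h3
    refine h3.trans (Nat.pow_le_pow_right (by positivity) ?_)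
    nlinarith
  · intro n
    set x : Fin J → ℝ := fun i => if ∀ l ∈ Pi i, ¬ l ∣ n then (1 : ℝ) else 0 with hx
    set y : Fin J → ℝ := fun i => ∑ U ∈ (Pi i).powerset.filter (fun U => U.card ≤ bb i),
        if ∀ l ∈ U, l ∣ n then ((-1 : ℝ)) ^ U.card else 0 with hy
    set e : Fin J → ℝ := fun i => ∑ U ∈ powersetCard (bb i + 1) (Pi i),
        if ∀ l ∈ U, l ∣ n then (1 : ℝ) else 0 with he
    have hloc : ∀ i, 0 ≤ x i ∧ x i ≤ y i ∧ y i - x i ≤ e i := fun i =>
      bh_local (Pi i) (bb i) (hbe i) n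
    have hyv : ∀ i, VV (Pi i) (al i) (fun p => if p ∣ n then 1 else 0) = y i := by
      intro i
      simp only [hal]
      rw [VV_filter (Pi i) (fun U => U.card ≤ bb i) (fun U => (-1) ^ U.card)]
      apply sum_congr rfl
      intro U _
      rw [prod_ind]
      split_ifs <;> simp
    have hev : ∀ i, VV (Pi i) (ep i) (fun p => if p ∣ n then 1 else 0) = e i := by
      intro i
      simp only [hep]
      rw [VV_filter (Pi i) (fun U => U.card = bb i + 1) (fun U => 1)]
      simp only [he]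
      rw [powersetCard_eq_filter]
      apply sum_congr rfl
      intro U _
      rw [prod_ind]
      split_ifs <;> simp
    have hxp : (if ∀ p ∈ P, ¬ p ∣ n then (1 : ℝ) else 0) = ∏ i, x i := by
      simp only [hx]
      rw [Fintype.prod_ite_zero]
      have h1 : (∀ p ∈ P, ¬ p ∣ n) ↔ ∀ i, ∀ l ∈ Pi i, ¬ l ∣ n := by
        constructor
        · intro h i l hl
          exact h l (hPiP i hl)
        · intro h p hp
          rw [← hU, mem_biUnion] at hp
          obtain ⟨i, _, hi⟩ := hp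
          exact h i p hi
      by_cases h2 : ∀ p ∈ P, ¬ p ∣ n
      · rw [if_pos h2, if_pos (h1.1 h2), prod_const_one]
      · rw [if_neg h2, if_neg (fun h => h2 (h1.2 h))]
    rw [VV_sub, VV_sum, hVU, hxp]
    simp only [hVE, hyv, hev]
    constructor
    · have := bh_prod_sub univ x y e (fun i => (hloc i).1) (fun i => (hloc i).2.1)
        (fun i => (hloc i).2.2)
      linarith
    · exact prod_le_prod (fun i _ => (hloc i).1) (fun i _ => (hloc i).2.1)
  · intro g hg
    have hVeq : ∏ l ∈ P, (1 - g l) = ∏ i, ∏ l ∈ Pi i, (1 - g l) := by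
      rw [bh_pT_eq Pi hPG (fun l => 1 - g l)]
      unfold bhU
      rw [hU]
    set V : Fin J → ℝ := fun i => ∏ l ∈ Pi i, (1 - g l) with hVdef
    set Tr : Fin J → ℝ := fun i => bhA g (bb i) (Pi i) with hTr
    set Er : Fin J → ℝ := fun i => bhE g (bb i + 1) (Pi i) with hEr
    have hTrV : ∀ i, VV (Pi i) (al i) g = Tr i := by
      intro i
      simp only [hal]
      rw [VV_filter (Pi i) (fun U => U.card ≤ bb i) (fun U => (-1) ^ U.card)]
      rfl
    have hErV : ∀ i, VV (Pi i) (ep i) g = Er i := by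
      intro i
      simp only [hep]
      rw [VV_filter (Pi i) (fun U => U.card = bb i + 1) (fun U => 1), ← powersetCard_eq_filter]
      simp only [hEr, bhE, one_mul]
    rw [VV_sub, VV_sum, hVU, hVeq]
    simp only [hVE, hTrV, hErV]
    have hpb : ∀ p ∈ P, (2 * κ + 10 : ℝ) ≤ (p : ℝ) - 1 := by
      intro p hp
      have h2 : 2 * κ + 10 + 1 ≤ p := by
        have := (hP p hp).2.1
        omega
      have h3 : ((2 * κ + 10 + 1 : ℕ) : ℝ) ≤ p := by exact_mod_cast h2
      push_cast at h3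
      linarith
    have hgk : ∀ p ∈ P, g p ≤ 1 / 2 := by
      intro p hp
      have h1 := (hg p hp).2
      have h2 := hpb p hp
      refine h1.trans ?_
      rw [div_le_iff₀ (by linarith)]
      linarith
    have hg2 : ∀ p ∈ P, g p ≤ 2 * κ * (1 / (p : ℝ)) := by
      intro p hp
      have h1 := (hg p hp).2
      have h2 := hpb p hp
      refine h1.trans ?_
      rw [mul_one_div, div_le_div_iff₀ (by linarith) (by linarith)]
      nlinarith
    have hgb : ∀ i, ∀ l ∈ Pi i, 0 ≤ g l ∧ g l ≤ 1 := fun i l hl =>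
      ⟨(hg l (hPiP i hl)).1, by linarith [hgk l (hPiP i hl)]⟩
    have hbonf : ∀ i, V i ≤ Tr i ∧ Tr i ≤ V i + Er i := by
      intro i
      have h := bh_bonf g (Pi i) (hgb i) (bb i)
      rw [(hbe i).neg_one_pow, one_mul] at h
      constructor
      · have := h.1; simp only [hVdef, hTr]; linarith
      · have := h.2; simp only [hVdef, hTr, hEr]; linarith
    have hgsum : ∀ i, ∑ l ∈ Pi i, g l ≤ x0 := by
      intro i
      calc ∑ l ∈ Pi i, g l ≤ ∑ l ∈ Pi i, 2 * (κ : ℝ) * (1 / (l : ℝ)) := by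
            apply sum_le_sum
            intro l hl
            exact hg2 l (hPiP i hl)
        _ = 2 * κ * ∑ l ∈ Pi i, 1 / (l : ℝ) := by rw [mul_sum]
        _ ≤ 2 * κ * ∑ l ∈ Gj ((i : ℕ) + 1), 1 / (l : ℝ) := by
            apply mul_le_mul_of_nonneg_left _ (by positivity)
            apply sum_le_sum_of_subset_of_nonneg (hPG i)
            intro l _ _
            positivity
        _ ≤ 2 * κ * L := mul_le_mul_of_nonneg_left (hLs i) (by positivity)
        _ = x0 := by rw [hx0]; ring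
    have hVv : ∀ i, v ≤ V i := by
      intro i
      have h1 : Real.exp (-(2 * ∑ l ∈ Pi i, g l)) ≤ V i := by
        have h2 : -(2 * ∑ l ∈ Pi i, g l) = ∑ l ∈ Pi i, -(2 * g l) := by
          rw [mul_sum, ← sum_neg_distrib]
        rw [h2, Real.exp_sum]
        refine prod_le_prod (fun l _ => (Real.exp_pos _).le) fun l hl => ?_
        exact bh_inv_ge (hgb i l hl).1 (hgk l (hPiP i hl))
      refine le_trans ?_ h1
      rw [hv]
      exact Real.exp_le_exp.2 (by linarith [hgsum i])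
    have hEr0 : ∀ i, 0 ≤ Er i := fun i => bhE_nonneg _ _ _ fun l hl => (hgb i l hl).1
    have hErle : ∀ i, Er i ≤ x0 ^ (bb i + 1) / (bb i + 1).factorial := by
      intro i
      refine (bhE_le g (Pi i) (fun l hl => (hgb i l hl).1) (bb i + 1)).trans ?_
      have h0 : 0 ≤ ∑ l ∈ Pi i, g l := sum_nonneg fun l hl => (hgb i l hl).1
      have h1 := hgsum i
      gcongr
    have hErv : ∀ i, Er i / v ≤ (1 / 2) ^ (bb i + 1) := by
      intro i
      have h1 : Er i / v = Er i * Real.exp (2 * x0) := by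
        rw [hv, Real.exp_neg, div_inv_eq_mul]
      rw [h1]
      refine le_trans (mul_le_mul_of_nonneg_right (hErle i) (Real.exp_pos _).le) ?_
      apply tail_one x0 hx00 (bb i + 1) (by omega)
      have h2 : ((2 * N : ℕ) : ℝ) ≤ ((bb i + 1 : ℕ) : ℝ) := by
        have : 2 * N ≤ bb i + 1 := by simp only [hbdef]; omega
        exact_mod_cast this
      push_cast at h2 ⊢
      rw [hx0]
      linarith
    set s : ℝ := ∑ i, Er i / v with hs
    have hs0 : 0 ≤ s := sum_nonneg fun i _ => div_nonneg (hEr0 i) hv0.le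
    have hErsum : s ≤ 2 / 3 * (1 / 4) ^ b :=
      le_trans (sum_le_sum fun i _ => hErv i) (tail_b b J)
    have h4b : (1 / 4 : ℝ) ^ b ≤ 1 / 4 * (1 / 2) ^ b * 2 := by
      have h1 : (1 / 4 : ℝ) ^ b = (1 / 2) ^ b * (1 / 2) ^ b := by
        rw [← mul_pow]; norm_num
      have h2 : (1 / 2 : ℝ) ^ b ≤ (1 / 2) ^ 1 :=
        pow_le_pow_of_le_one (by norm_num) (by norm_num) hb1
      have h3 : (0 : ℝ) ≤ (1 / 2) ^ b := by positivity
      rw [h1]
      nlinarith
    have hhb : (1 / 2 : ℝ) ^ b ≤ 1 / 2 := by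
      have h2 : (1 / 2 : ℝ) ^ b ≤ (1 / 2) ^ 1 :=
        pow_le_pow_of_le_one (by norm_num) (by norm_num) hb1
      linarith
    have hhb0 : (0 : ℝ) ≤ (1 / 2) ^ b := by positivity
    have hs1 : 2 * s ≤ (1 / 2) ^ b := by linarith
    have hs2 : s ≤ 1 / 4 := by linarith
    have hV0 : ∀ i, 0 < V i := fun i => lt_of_lt_of_le hv0 (hVv i)
    have hTr0 : ∀ i, 0 < Tr i := fun i => lt_of_lt_of_le (hV0 i) (hbonf i).1
    have hV00 : 0 ≤ ∏ i, V i := prod_nonneg fun i _ => (hV0 i).le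
    have hTr00 : 0 ≤ ∏ i, Tr i := prod_nonneg fun i _ => (hTr0 i).le
    have hErTr : 0 ≤ ∑ k, Er k * ∏ i ∈ univ.erase k, Tr i := by
      apply sum_nonneg
      intro k _
      exact mul_nonneg (hEr0 k) (prod_nonneg fun i _ => (hTr0 i).le)
    have hTp : ∏ i, V i ≤ ∏ i, Tr i := prod_le_prod (fun i _ => (hV0 i).le)
      fun i _ => (hbonf i).1
    refine ⟨?_, by linarith, hTp, ?_⟩
    · have hk : ∀ k, Er k * ∏ i ∈ univ.erase k, Tr i ≤ Er k / v * ∏ i, Tr i := by
        intro k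
        have h1 : ∏ i, Tr i = Tr k * ∏ i ∈ univ.erase k, Tr i :=
          (mul_prod_erase univ Tr (mem_univ k)).symm
        have h2 : 0 ≤ ∏ i ∈ univ.erase k, Tr i := prod_nonneg fun i _ => (hTr0 i).le
        rw [h1, div_mul_eq_mul_div, le_div_iff₀ hv0]
        have h3 : v ≤ Tr k := (hVv k).trans (hbonf k).1
        have h4 : Er k * (∏ i ∈ univ.erase k, Tr i) * v ≤
            Er k * (∏ i ∈ univ.erase k, Tr i) * Tr k :=
          mul_le_mul_of_nonneg_left h3 (mul_nonneg (hEr0 k) h2)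
        linarith
      have hsum : ∑ k, Er k * ∏ i ∈ univ.erase k, Tr i ≤ (1 / 2) ^ b * ∏ i, Tr i := by
        calc ∑ k, Er k * ∏ i ∈ univ.erase k, Tr i ≤ ∑ k, Er k / v * ∏ i, Tr i :=
              sum_le_sum fun k _ => hk k
          _ = s * ∏ i, Tr i := by rw [← sum_mul]
          _ ≤ (1 / 2) ^ b * ∏ i, Tr i :=
              mul_le_mul_of_nonneg_right (by linarith) hTr00
      have h6 : (1 - (1 / 2 : ℝ) ^ b) * ∏ i, V i ≤ (1 - (1 / 2) ^ b) * ∏ i, Tr i :=
        mul_le_mul_of_nonneg_left hTp (by linarith)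
      linarith
    · have hexp : Real.exp s ≤ 1 + (1 / 2) ^ b := by
        have h1 := Real.abs_exp_sub_one_sub_id_le (x := s) (by rw [abs_of_nonneg hs0]; linarith)
        have h2 := (abs_le.1 h1).2
        nlinarith
      have h1 : ∏ i, Tr i ≤ ∏ i, V i * Real.exp (Er i / v) := by
        refine prod_le_prod (fun i _ => (hTr0 i).le) fun i _ => ?_
        refine (hbonf i).2.trans ?_
        have h2 := Real.add_one_le_exp (Er i / v)
        have h3 : V i * (Er i / v + 1) ≤ V i * Real.exp (Er i / v) :=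
          mul_le_mul_of_nonneg_left h2 (hV0 i).le
        refine le_trans ?_ h3
        have h4 : Er i ≤ V i * (Er i / v) := by
          rw [← mul_div_assoc, le_div_iff₀ hv0, mul_comm (V i)]
          exact mul_le_mul_of_nonneg_left (hVv i) (hEr0 i)
        linarith
      rw [prod_mul_distrib, ← Real.exp_sum] at h1
      calc ∏ i, Tr i ≤ (∏ i, V i) * Real.exp s := h1
        _ ≤ (∏ i, V i) * (1 + (1 / 2) ^ b) := mul_le_mul_of_nonneg_left hexp hV00
        _ = _ := by ring

end Pool.Agent.Y882
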