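import Pool.Agent.W52.DC.PT
import Pool.Agent.W120.DC.LN
import Pool.Agent.W586.DC.ER
import Pool.Agent.W366.DC.SFX
import Pool.Agent.W505.DC.MT
import Pool.Agent.W505.DC.MI
import Pool.Agent.Y882.VV

/-! The linear sieve on rough numbers, in the form of universal weights. -/

set_option autoImplicit false

open Finset

namespace Pool.Agent.Y882

open Pool.Agent.W23.DC

open Classical in
/-- the coefficients of the linear sieve -/
noncomputable def lc (P : Finset ℕ) (t : ℕ → ℝ) (k : ℕ) (b : Bool) (τ ζ : ℝ) (T : Finset ℕ) : ℝ :=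
  LL P t (fun e => if e = ∏ p ∈ T, p then 1 else 0) k b τ ζ 1

theorem prod_inj (P : Finset ℕ) (hP : ∀ p ∈ P, p.Prime) {T T' : Finset ℕ} (hT : T ⊆ P)
    (hT' : T' ⊆ P) (h : ∏ p ∈ T, p = ∏ p ∈ T', p) : T = T' := by
  have h1 := Nat.primeFactors_prod (s := T) (fun p hp => hP p (hT hp))
  have h2 := Nat.primeFactors_prod (s := T') (fun p hp => hP p (hT' hp))
  rw [← h1, ← h2, h]

theorem LL_zero (P : Finset ℕ) (t : ℕ → ℝ) (hs : Siz P t) (k : ℕ) (b : Bool) (τ ζ : ℝ) (d : ℕ)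
    (hτ : 0 ≤ τ) (hb : b = false → 2 * ζ ≤ τ) (r : ℕ → ℝ)
    (hr : ∀ e ∈ EE P t τ ζ, r (d * e) = 0) : LL P t r k b τ ζ d = 0 := by
  have h1 := Pool.Agent.W586.DC.ER P t hs r k b τ ζ d hτ hb
  have h2 : ∑ e ∈ EE P t τ ζ, |r (d * e)| = 0 := by
    apply sum_eq_zero
    intro e he
    rw [hr e he, abs_zero]
  rw [h2] at h1
  exact abs_eq_zero.1 (le_antisymm h1 (abs_nonneg _))

theorem EE_sub (P : Finset ℕ) (t : ℕ → ℝ) (τ ζ : ℝ) (e : ℕ) (he : e ∈ EE P t τ ζ) :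
    ∃ T ⊆ P, e = ∏ p ∈ T, p := by
  classical
  unfold EE at he
  rw [mem_filter, mem_image] at he
  obtain ⟨⟨T, hT, rfl⟩, _⟩ := he
  rw [mem_powerset] at hT
  exact ⟨T, hT.trans (filter_subset _ _), rfl⟩

theorem LN_pow {ι : Type} (P : Finset ℕ) (t : ℕ → ℝ) (A : Finset ι) (G : ι → ℕ → ℝ) (k : ℕ) :
    ∀ (b : Bool) (τ ζ : ℝ) (d : ℕ),
      LL P t (fun e => ∑ a ∈ A, G a e) k b τ ζ d = ∑ a ∈ A, LL P t (G a) k b τ ζ d := by
  induction k with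
  | zero =>
    intro b τ ζ d
    cases b <;> simp [LL]
  | succ k ih =>
    intro b τ ζ d
    cases b
    · simp only [LL]
      rw [Finset.sum_sub_distrib, Finset.sum_comm]
      congr 1
      exact Finset.sum_congr rfl (fun p _ => ih _ _ _ _)
    · simp only [LL]
      rw [Finset.sum_sub_distrib, Finset.sum_comm]
      congr 1
      exact Finset.sum_congr rfl (fun p _ => ih _ _ _ _)

theorem lc_sum (P : Finset ℕ) (t : ℕ → ℝ) (hs : Siz P t) (k : ℕ) (b : Bool) (τ ζ : ℝ)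
    (hτ : 0 ≤ τ) (hb : b = false → 2 * ζ ≤ τ) (G : ℕ → ℝ) :
    LL P t G k b τ ζ 1 = ∑ T ∈ P.powerset, lc P t k b τ ζ T * G (∏ p ∈ T, p) := by
  classical
  obtain ⟨l1, l2, -⟩ := Pool.Agent.W120.DC.LN
  have h0 : LL P t (fun _ => (0 : ℝ)) k b τ ζ 1 = 0 :=
    LL_zero P t hs k b τ ζ 1 hτ hb _ (fun _ _ => rfl)
  have h1 : LL P t (fun e => ∑ T ∈ P.powerset, (G (∏ p ∈ T, p) *
    (if e = ∏ p ∈ T, p then (1 : ℝ) else 0) + (0 : ℝ))) k b τ ζ 1 =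
      ∑ T ∈ P.powerset, lc P t k b τ ζ T * G (∏ p ∈ T, p) := by
    have h1a := LN_pow P t P.powerset (fun T e => G (∏ p ∈ T, p) *
      (if e = ∏ p ∈ T, p then (1 : ℝ) else 0) + (0 : ℝ)) k b τ ζ 1
    rw [h1a]
    apply sum_congr rfl
    intro T _
    have h2 := l2 P t (G (∏ p ∈ T, p)) (fun e => if e = ∏ p ∈ T, p then (1 : ℝ) else 0)
      (fun _ => 0) k b τ ζ 1
    rw [h2, h0]
    unfold lc
    ring
  have h3 := l2 P t 1 (fun e => ∑ T ∈ P.powerset, (G (∏ p ∈ T, p) *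
    (if e = ∏ p ∈ T, p then (1 : ℝ) else 0) + (0 : ℝ))) (fun e => G e - ∑ T ∈ P.powerset,
      (G (∏ p ∈ T, p) * (if e = ∏ p ∈ T, p then (1 : ℝ) else 0) + (0 : ℝ))) k b τ ζ 1
  have h4 : (fun e => 1 * (∑ T ∈ P.powerset, (G (∏ p ∈ T, p) *
    (if e = ∏ p ∈ T, p then (1 : ℝ) else 0) + (0 : ℝ))) + (G e - ∑ T ∈ P.powerset,
      (G (∏ p ∈ T, p) * (if e = ∏ p ∈ T, p then (1 : ℝ) else 0) + (0 : ℝ)))) = G := by
    funext e
    ring
  rw [h4, h1] at h3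
  rw [h3, LL_zero P t hs k b τ ζ 1 hτ hb _ ?_]
  · ring
  · intro e he
    obtain ⟨T0, hT0, rfl⟩ := EE_sub P t τ ζ e he
    rw [one_mul, sub_eq_zero]
    rw [sum_eq_single T0]
    · rw [if_pos rfl]; ring
    · intro T hT hne
      rw [if_neg, mul_zero, add_zero]
      intro h
      exact hne (prod_inj P hs.pr (mem_powerset.1 hT) hT0 h.symm)
    · intro h
      exact absurd (mem_powerset.2 hT0) h

theorem lc_EE (P : Finset ℕ) (t : ℕ → ℝ) (hs : Siz P t) (k : ℕ) (b : Bool) (τ ζ : ℝ)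
    (hτ : 0 ≤ τ) (hb : b = false → 2 * ζ ≤ τ) (T : Finset ℕ) (h : lc P t k b τ ζ T ≠ 0) :
    ∏ p ∈ T, p ∈ EE P t τ ζ := by
  by_contra hc
  apply h
  unfold lc
  apply LL_zero P t hs k b τ ζ 1 hτ hb
  intro e he
  rw [one_mul, if_neg]
  rintro rfl
  exact hc he

theorem lc_le (P : Finset ℕ) (t : ℕ → ℝ) (hs : Siz P t) (k : ℕ) (b : Bool) (τ ζ : ℝ)
    (hτ : 0 ≤ τ) (hb : b = false → 2 * ζ ≤ τ) (T : Finset ℕ) : |lc P t k b τ ζ T| ≤ 1 := by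
  classical
  unfold lc
  refine (Pool.Agent.W586.DC.ER P t hs _ k b τ ζ 1 hτ hb).trans ?_
  calc ∑ e ∈ EE P t τ ζ, |if 1 * e = ∏ p ∈ T, p then (1 : ℝ) else 0|
      = ∑ e ∈ EE P t τ ζ, if e = ∏ p ∈ T, p then (1 : ℝ) else 0 := by
        apply sum_congr rfl
        intro e _
        rw [one_mul]
        split_ifs <;> simp
    _ ≤ 1 := by
        rw [sum_ite_eq']
        split_ifs <;> norm_num

theorem sz_mul (t : ℕ → ℝ) (ht : ∀ p, 0 ≤ t p) (u v : ℕ) (hu : u ≠ 0) (hv : v ≠ 0) :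
    sz t (u * v) ≤ sz t u + sz t v := by
  classical
  unfold sz
  rw [Nat.primeFactors_mul hu hv, ← sum_union_inter]
  have : 0 ≤ ∑ p ∈ u.primeFactors ∩ v.primeFactors, t p := sum_nonneg fun p _ => ht p
  linarith

theorem EE_sz (P : Finset ℕ) (t : ℕ → ℝ) (hs : Siz P t) (ht : ∀ p, 0 ≤ t p) (τ ζ : ℝ) (hτ : 0 ≤ τ)
    (e : ℕ) (he : e ∈ EE P t τ ζ) : sz t e ≤ τ := by
  classical
  have he0 : e ≠ 0 := by
    obtain ⟨T, hT, rfl⟩ := EE_sub P t τ ζ e he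
    rw [prod_ne_zero_iff]
    intro p hp
    exact (hs.pr p (hT hp)).ne_zero
  unfold EE at he
  rw [mem_filter] at he
  obtain ⟨u, v, huv, h1, h2⟩ := he.2 τ 0 hτ le_rfl (add_zero τ)
  have hu : u ≠ 0 := by rintro rfl; simp at huv; exact he0 huv.symm
  have hv : v ≠ 0 := by rintro rfl; simp at huv; exact he0 huv.symm
  rw [← huv]
  linarith [sz_mul t ht u v hu hv]

theorem lc_V (P : Finset ℕ) (t : ℕ → ℝ) (hs : Siz P t) (k : ℕ) (b : Bool) (τ ζ : ℝ)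
    (hτ : 0 ≤ τ) (hb : b = false → 2 * ζ ≤ τ) (g : ℕ → ℝ) :
    VV P (lc P t k b τ ζ) g = MM P t g k b τ ζ := by
  classical
  obtain ⟨-, -, l3⟩ := Pool.Agent.W120.DC.LN
  have h1 := lc_sum P t hs k b τ ζ hτ hb (fun e => ∏ p ∈ e.primeFactors, g p)
  have h2 := l3 P t hs g (fun e => ∏ p ∈ e.primeFactors, g p) ?_ k b τ ζ 1 ?_
  · rw [h1] at h2
    unfold VV
    rw [Nat.primeFactors_one, prod_empty, one_mul] at h2
    rw [← h2]
    apply sum_congr rfl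
    intro T hT
    rw [Nat.primeFactors_prod (fun p hp => hs.pr p (mem_powerset.1 hT hp))]
  · intro d p hp hpd
    have hpp := hs.pr p hp
    have hd : d ≠ 0 := by rintro rfl; exact hpd (dvd_zero p)
    show ∏ q ∈ (d * p).primeFactors, g q = (∏ q ∈ d.primeFactors, g q) * g p
    rw [Nat.primeFactors_mul hd hpp.ne_zero, hpp.primeFactors, prod_union, prod_singleton]
    rw [disjoint_singleton_right]
    intro h
    exact hpd (Nat.dvd_of_mem_primeFactors h)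
  · intro p hp _ h
    have := (hs.pr p hp).one_lt
    have := Nat.le_of_dvd one_pos h
    omega

open Classical in
theorem lc_ind (P : Finset ℕ) (t : ℕ → ℝ) (hs : Siz P t) (k : ℕ) (τ ζ : ℝ)
    (hτ : 0 ≤ τ) (hb : 2 * ζ ≤ τ) (hζ : ∀ p ∈ P, t p < ζ) (N : ℕ) :
    VV P (lc P t k false τ ζ) (fun p => if p ∣ N then 1 else 0) ≤
      (if ∀ p ∈ P, ¬ p ∣ N then 1 else 0) ∧
    (if ∀ p ∈ P, ¬ p ∣ N then 1 else 0) ≤
      VV P (lc P t k true τ ζ) (fun p => if p ∣ N then 1 else 0) := by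
  have key : ∀ b : Bool, VV P (lc P t k b τ ζ) (fun p => if p ∣ N then 1 else 0) =
      LL P t (fun e => if e ∣ N then 1 else 0) k b τ ζ 1 := by
    intro b
    rw [lc_sum P t hs k b τ ζ hτ (fun _ => hb)]
    unfold VV
    apply sum_congr rfl
    intro T hT
    rw [prod_ind]
    congr 1
    have h1 : (∀ p ∈ T, p ∣ N) ↔ (∏ p ∈ T, p) ∣ N := by
      constructor
      · intro h
        exact Finset.prod_primes_dvd N
          (fun p hp => (hs.pr p (mem_powerset.1 hT hp)).prime) h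
      · intro h p hp
        exact (dvd_prod_of_mem (fun p => p) hp).trans h
    by_cases h2 : ∀ p ∈ T, p ∣ N
    · rw [if_pos h2, if_pos (h1.1 h2)]
    · rw [if_neg h2, if_neg (fun h => h2 (h1.2 h))]
  have hone : ∀ p ∈ P, t p < ζ → ¬ p ∣ 1 := by
    intro p hp _ h
    have := (hs.pr p hp).one_lt
    have := Nat.le_of_dvd one_pos h
    omega
  have h1 := Pool.Agent.W52.DC.PT P t hs N k τ ζ 1 hone
  have h2 : (1 ∣ N ∧ ∀ p ∈ P, t p < ζ → ¬ p ∣ N) ↔ ∀ p ∈ P, ¬ p ∣ N := by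
    constructor
    · intro h p hp
      exact h.2 p hp (hζ p hp)
    · intro h
      exact ⟨one_dvd N, fun p hp _ => h p hp⟩
  rw [key, key]
  by_cases h3 : ∀ p ∈ P, ¬ p ∣ N
  · rw [if_pos h3]
    rw [if_pos (h2.2 h3)] at h1
    exact ⟨h1.2, h1.1⟩
  · rw [if_neg h3]
    rw [if_neg (fun h => h3 (h2.1 h))] at h1
    exact ⟨h1.2, h1.1⟩

open Classical in
/-- the linear sieve: universal weights -/
theorem lsw (τ ζ : ℝ) (hζ : 0 < ζ) (h2 : 2 * ζ < τ) (h4 : τ ≤ 4 * ζ) (hτ : τ ≤ 1) :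
    ∃ f0 F0 : ℝ, 0 < f0 ∧ 0 < F0 ∧ ∀ ε₁ : ℝ, 0 < ε₁ → ε₁ ≤ ζ → ∃ η : ℝ, 0 < η ∧
      ∀ (Y : ℕ), 2 ≤ Y → ∃ cU cL : Finset ℕ → ℝ, (∀ T, |cU T| ≤ 1 ∧ |cL T| ≤ 1) ∧
        (∀ T ⊆ pr Y ε₁ ζ, (cU T ≠ 0 ∨ cL T ≠ 0) → ((∏ p ∈ T, p : ℕ) : ℝ) ≤ (Y : ℝ) ^ τ) ∧
        (∀ N : ℕ, VV (pr Y ε₁ ζ) cL (fun p => if p ∣ N then 1 else 0) ≤
            (if ∀ p ∈ pr Y ε₁ ζ, ¬ p ∣ N then 1 else 0) ∧
          (if ∀ p ∈ pr Y ε₁ ζ, ¬ p ∣ N then 1 else 0) ≤
            VV (pr Y ε₁ ζ) cU (fun p => if p ∣ N then 1 else 0)) ∧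
        ∀ g : ℕ → ℝ, (∀ p ∈ pr Y ε₁ ζ, 0 ≤ g p) → Mer (pr Y ε₁ ζ) (tt Y) g ε₁ ζ η →
          ε₁ * f0 ≤ VV (pr Y ε₁ ζ) cL g ∧ VV (pr Y ε₁ ζ) cU g ≤ ε₁ * F0 := by
  obtain ⟨A0, F, f, hSF⟩ := Pool.Agent.W366.DC.SFX
  have hτ0 : 0 < τ := by linarith
  set s : ℝ := τ / ζ with hs
  have hs2 : 2 < s := by rw [hs, lt_div_iff₀ hζ]; exact h2
  have hs4 : s ≤ 4 := by rw [hs, div_le_iff₀ hζ]; exact h4
  have hf : 0 < f s := by
    rw [hSF.f4 s hs2.le hs4]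
    have h5 : 0 < Real.log (s - 1) := Real.log_pos (by linarith)
    have := hSF.pos
    positivity
  have hF : 1 ≤ F s := hSF.F1 s (by linarith)
  have hF0 : 0 < F s := by linarith
  refine ⟨f s / ζ / 2, F s / ζ + f s / ζ / 2, by positivity, by positivity, ?_⟩
  intro ε₁ hε₁ hεζ
  have hη' : 0 < ε₁ * (f s / ζ / 2) := by positivity
  obtain ⟨K, hK⟩ := exists_nat_ge (τ / ε₁)
  have hε1 : ε₁ ≤ 1 := by linarith
  obtain ⟨η, hη, H⟩ := Pool.Agent.W505.DC.MT Pool.Agent.W505.DC.MI A0 F f hSF ε₁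
    (ε₁ * (f s / ζ / 2)) K hε₁ hε1 hη'
  refine ⟨η, hη, ?_⟩
  intro Y hY
  have hY2 : (2 : ℝ) ≤ Y := by exact_mod_cast hY
  have hlY : 0 < Real.log Y := Real.log_pos (by linarith)
  have hmem : ∀ p ∈ pr Y ε₁ ζ, p.Prime ∧ ε₁ ≤ tt Y p ∧ tt Y p < ζ := by
    intro p hp
    unfold pr at hp
    rw [mem_filter] at hp
    exact hp.2
  have hsiz : Siz (pr Y ε₁ ζ) (tt Y) := by
    refine ⟨fun p hp => (hmem p hp).1, fun p hp => lt_of_lt_of_le hε₁ (hmem p hp).2.1, ?_⟩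
    intro p hp q hq
    have hp0 : (0 : ℝ) < p := by exact_mod_cast (hmem p hp).1.pos
    unfold tt
    rw [div_lt_div_iff_of_pos_right hlY, Real.log_lt_log_iff hp0
      (by exact_mod_cast (hmem q hq).1.pos)]
    exact Nat.cast_lt
  have ht0 : ∀ p, 0 ≤ tt Y p := by
    intro p
    unfold tt
    exact div_nonneg (Real.log_natCast_nonneg p) hlY.le
  refine ⟨lc (pr Y ε₁ ζ) (tt Y) K true τ ζ, lc (pr Y ε₁ ζ) (tt Y) K false τ ζ, ?_, ?_, ?_, ?_⟩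
  · intro T
    exact ⟨lc_le _ _ hsiz K true τ ζ hτ0.le (fun _ => h2.le) T,
      lc_le _ _ hsiz K false τ ζ hτ0.le (fun _ => h2.le) T⟩
  · intro T hT hne
    have hE : ∏ p ∈ T, p ∈ EE (pr Y ε₁ ζ) (tt Y) τ ζ := by
      rcases hne with h | h
      · exact lc_EE _ _ hsiz K true τ ζ hτ0.le (fun _ => h2.le) T h
      · exact lc_EE _ _ hsiz K false τ ζ hτ0.le (fun _ => h2.le) T h
    have h5 := EE_sz _ _ hsiz ht0 τ ζ hτ0.le _ hE
    unfold sz at h5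
    rw [Nat.primeFactors_prod (fun p hp => (hmem p (hT hp)).1)] at h5
    unfold tt at h5
    rw [← sum_div, div_le_iff₀ hlY] at h5
    have hp0 : ∀ p ∈ T, (p : ℝ) ≠ 0 := by
      intro p hp
      have := (hmem p (hT hp)).1.ne_zero
      exact_mod_cast this
    have h6 : Real.log ((∏ p ∈ T, p : ℕ) : ℝ) = ∑ p ∈ T, Real.log p := by
      push_cast
      rw [Real.log_prod hp0]
    rw [← h6] at h5
    have hpos : (0 : ℝ) < ((∏ p ∈ T, p : ℕ) : ℝ) := by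
      have : 0 < ∏ p ∈ T, p := prod_pos fun p hp => (hmem p (hT hp)).1.pos
      exact_mod_cast this
    rw [← Real.log_le_log_iff hpos (by positivity), Real.log_rpow (by linarith)]
    exact h5
  · intro N
    exact lc_ind _ _ hsiz K τ ζ hτ0.le h2.le (fun p hp => (hmem p hp).2.2) N
  · intro g hg hM
    have hKτ : τ ≤ (K + 2) * ε₁ := by
      rw [div_le_iff₀ hε₁] at hK
      nlinarith
    have h7 := H (pr Y ε₁ ζ) (tt Y) g ζ (by linarith) hg (fun p hp => (hmem p hp).2.1) hM K le_rfl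
      τ ζ hKτ hεζ le_rfl (by linarith) hτ
    rw [lc_V _ _ hsiz K false τ ζ hτ0.le (fun _ => h2.le), lc_V _ _ hsiz K true τ ζ hτ0.le
      (fun _ => h2.le)]
    have h8 := h7.2 h2.le
    have h9 := h7.1
    constructor
    · refine le_trans (le_of_eq ?_) h8
      ring
    · refine h9.trans (le_of_eq ?_)
      ring

end Pool.Agent.Y882
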