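import Pool.Agent.Y882.Fin

/-! From dyadic blocks to initial segments. -/

set_option autoImplicit false

open Finset Filter Topology

namespace Pool.Agent.Y882

theorem cum (E : ℕ → Prop) [DecidablePred E] (a : ℝ) (ha : 0 < a) (Y0 : ℕ)
    (h : ∀ Y : ℕ, Y0 ≤ Y → (((Ioc Y (2 * Y)).filter E).card : ℝ) ≤ (Y : ℝ) ^ a) :
    ∃ C : ℝ, 0 < C ∧ ∀ X : ℕ, 1 ≤ X → (((Icc 1 X).filter E).card : ℝ) ≤ C * (X : ℝ) ^ a := by
  set r : ℝ := (2 / 3 : ℝ) ^ a with hr
  have hr0 : 0 < r := by positivity
  have hr1 : r < 1 := Real.rpow_lt_one (by norm_num) (by norm_num) ha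
  set C : ℝ := max ((2 * Y0 + 4 : ℕ) : ℝ) (r / (1 - r)) with hC
  have hC0 : 0 < C := lt_of_lt_of_le (by positivity) (le_max_left _ _)
  refine ⟨C, hC0, ?_⟩
  intro X
  induction X using Nat.strong_induction_on with
  | _ X ih =>
    intro hX1
    have hXr : (1 : ℝ) ≤ X := by exact_mod_cast hX1
    rcases Nat.lt_or_ge X (2 * Y0 + 4) with hlt | hge
    · have h1 : (((Icc 1 X).filter E).card : ℝ) ≤ X := by
        have h2 : ((Icc 1 X).filter E).card ≤ (Icc 1 X).card := card_filter_le _ _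
        rw [Nat.card_Icc] at h2
        exact_mod_cast h2
      have h2 : (X : ℝ) ≤ C := by
        refine le_trans ?_ (le_max_left _ _)
        exact_mod_cast hlt.le
      have h3 : (1 : ℝ) ≤ (X : ℝ) ^ a := Real.one_le_rpow hXr ha.le
      calc (((Icc 1 X).filter E).card : ℝ) ≤ C * 1 := by linarith
        _ ≤ C * (X : ℝ) ^ a := mul_le_mul_of_nonneg_left h3 hC0.le
    · set Y : ℕ := (X + 1) / 2 with hY
      have hYX : Y < X := by omega
      have hY1 : 1 ≤ Y := by omega
      have hYY0 : Y0 ≤ Y := by omega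
      have h1 := ih Y hYX hY1
      have h2 := h Y hYY0
      have hsub : (Icc 1 X).filter E ⊆ (Icc 1 Y).filter E ∪ (Ioc Y (2 * Y)).filter E := by
        intro n hn
        rw [mem_filter, mem_Icc] at hn
        rw [mem_union, mem_filter, mem_filter, mem_Icc, mem_Ioc]
        rcases Nat.lt_or_ge Y n with h3 | h3
        · right
          exact ⟨⟨h3, by omega⟩, hn.2⟩
        · left
          exact ⟨⟨hn.1.1, h3⟩, hn.2⟩
      have h3 : (((Icc 1 X).filter E).card : ℝ) ≤ C * (Y : ℝ) ^ a + (Y : ℝ) ^ a := by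
        have h4 := (card_le_card hsub).trans (card_union_le _ _)
        have h5 : (((Icc 1 X).filter E).card : ℝ) ≤ ((Icc 1 Y).filter E).card +
            ((Ioc Y (2 * Y)).filter E).card := by exact_mod_cast h4
        linarith
      have h4 : (Y : ℝ) ^ a ≤ r * (X : ℝ) ^ a := by
        rw [hr, ← Real.mul_rpow (by norm_num) (by positivity)]
        apply Real.rpow_le_rpow (by positivity) _ ha.le
        have h5 : 3 * Y ≤ 2 * X := by omega
        have h6 : (3 : ℝ) * Y ≤ 2 * X := by exact_mod_cast h5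
        linarith
      have h5 : (C + 1) * r ≤ C := by
        have h6 : r / (1 - r) ≤ C := le_max_right _ _
        rw [div_le_iff₀ (by linarith)] at h6
        linarith
      calc (((Icc 1 X).filter E).card : ℝ) ≤ (C + 1) * (Y : ℝ) ^ a := by linarith
        _ ≤ (C + 1) * (r * (X : ℝ) ^ a) := mul_le_mul_of_nonneg_left h4 (by linarith)
        _ = ((C + 1) * r) * (X : ℝ) ^ a := by ring
        _ ≤ C * (X : ℝ) ^ a := mul_le_mul_of_nonneg_right h5 (by positivity)

end Pool.Agent.Y882
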