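import Pool.Agent.TH926.EH.LgFam

/-! Separated families of residue systems. -/

set_option autoImplicit false

open Finset Filter

namespace Pool.Agent.Y882.EHF

open Pool.Agent.TH926.EH

/-- the number of the moduli `q ≤ Q` modulo which two systems coincide -/
def coinc (c c' : ℕ → ℕ) (Q : ℕ) : ℕ :=
  ((Icc 1 Q).filter (fun q => c q ≡ c' q [MOD q])).card

lemma en_le {ι : Type} (I : Finset ι) (c : ι → ℕ → ℕ) (Q : ℕ) (K : ℝ)
    (h : ∀ i ∈ I, ∀ j ∈ I, i ≠ j → (coinc (c i) (c j) Q : ℝ) ≤ K) (hK : 0 ≤ K) :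
    (en I c Q : ℝ) ≤ I.card * Q + I.card ^ 2 * K := by
  classical
  have e1 : (en I c Q : ℝ) = ∑ i ∈ I, ∑ j ∈ I, (coinc (c i) (c j) Q : ℝ) := by
    unfold en coinc
    push_cast
    rw [← sum_product']
    simp only [card_filter, Nat.cast_sum]
    rw [sum_comm]
  have e2 : ∀ i ∈ I, ∑ j ∈ I, (coinc (c i) (c j) Q : ℝ) ≤ Q + I.card * K := by
    intro i hi
    calc ∑ j ∈ I, (coinc (c i) (c j) Q : ℝ) ≤ ∑ j ∈ I, ((if j = i then (Q : ℝ) else 0) + K) := by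
          apply sum_le_sum
          intro j hj
          by_cases hji : j = i
          · rw [if_pos hji]
            have h1 : (coinc (c i) (c j) Q : ℝ) ≤ Q := by
              have h2 : coinc (c i) (c j) Q ≤ Q := by
                unfold coinc
                calc _ ≤ (Icc 1 Q).card := card_filter_le _ _
                  _ = Q := by rw [Nat.card_Icc, Nat.add_sub_cancel]
              exact_mod_cast h2
            linarith
          · rw [if_neg hji, zero_add]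
            exact h i hi j hj (Ne.symm hji)
      _ = _ := by
          rw [sum_add_distrib, sum_ite_eq' I i, if_pos hi, sum_const, nsmul_eq_mul]
  rw [e1]
  calc ∑ i ∈ I, ∑ j ∈ I, (coinc (c i) (c j) Q : ℝ) ≤ ∑ _i ∈ I, ((Q : ℝ) + I.card * K) :=
        sum_le_sum e2
    _ = _ := by rw [sum_const, nsmul_eq_mul]; ring

/-- the sum of the errors over the moduli -/
noncomputable def S (N Q : ℕ) (c : ℕ → ℕ) : ℝ :=
  ∑ q ∈ (Icc 1 Q).filter (fun q => (c q).Coprime q), E N q (c q)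

/-- **few bad systems** -/
theorem few (U : ℕ) : ∃ B N₀ : ℕ, ∀ N : ℕ, N₀ ≤ N → ∀ Q : ℕ, (Q : ℝ) * Real.log N ^ B ≤ N →
    ∀ (ι : Type) (I : Finset ι) (c : ι → ℕ → ℕ),
      (∀ i ∈ I, ∀ j ∈ I, i ≠ j → (coinc (c i) (c j) Q : ℝ) * (Q * Real.log N ^ B) ≤ N) →
      (∀ i ∈ I, N / Real.log N ^ U < S N Q (c i)) →
      (I.card : ℝ) ≤ (Q : ℝ) ^ 2 / N * Real.log N ^ B := by
  obtain ⟨C, hC0, hC⟩ := fam2 (U + 1)
  obtain ⟨M, hM⟩ : ∃ M, M = 2 * U + 6 * (U + 5) := ⟨_, rfl⟩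
  -- thresholds
  have t1 := (Real.tendsto_log_atTop.comp (tendsto_natCast_atTop_atTop (R := ℝ))).eventually_ge_atTop
    (max (2 * C) (16 * C ^ 2 + 1))
  obtain ⟨N1, hN1⟩ := eventually_atTop.1 t1
  refine ⟨M + 1, N1 + 3, fun N hN Q hQ ι I c hsep hbad => ?_⟩
  have hl := hN1 N (by omega)
  simp only [Function.comp] at hl
  have hl2 : 2 * C ≤ Real.log N := (le_max_left _ _).trans hl
  have hl3 : 16 * C ^ 2 + 1 ≤ Real.log N := (le_max_right _ _).trans hl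
  have hlog1 : 1 ≤ Real.log N := by nlinarith
  have hlog0 : 0 < Real.log N := by linarith
  have hN3 : 3 ≤ N := by omega
  have hN0 : (0 : ℝ) < N := by exact_mod_cast (by omega : 0 < N)
  rcases I.eq_empty_or_nonempty with hI | ⟨i0, hi0⟩
  · rw [hI, card_empty, Nat.cast_zero]; positivity
  have hQ1 : 1 ≤ Q := by
    by_contra hcon
    have hQ0 : Q = 0 := by omega
    have h1 := hbad i0 hi0
    unfold S at h1
    rw [hQ0] at h1
    simp only [show Icc 1 0 = (∅ : Finset ℕ) from rfl, filter_empty, sum_empty] at h1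
    have h2 : 0 < (N:ℝ) / Real.log N ^ U := by positivity
    linarith
  have hQr : (1 : ℝ) ≤ Q := by exact_mod_cast hQ1
  have hQ0 : (0 : ℝ) < Q := by linarith
  obtain ⟨n, hn⟩ : ∃ n : ℝ, n = (I.card : ℝ) := ⟨_, rfl⟩
  have hn0 : 0 < n := by
    rw [hn]; exact_mod_cast card_pos.2 ⟨i0, hi0⟩
  obtain ⟨L, hL⟩ : ∃ L : ℝ, L = Real.log N := ⟨_, rfl⟩
  rw [← hL] at hl2 hl3 hlog1 hlog0 hQ hsep hbad ⊢
  rw [← hn]
  have hQ' : (Q : ℝ) * Real.log N ^ (U + 1 + 1) ≤ N := by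
    rw [← hL]
    refine le_trans ?_ hQ
    apply mul_le_mul_of_nonneg_left _ hQ0.le
    exact pow_le_pow_right₀ hlog1 (by omega)
  have h1 := hC N hN3 Q hQ' ι I c
  have h2 : n * (N / L ^ U) ≤
      ∑ i ∈ I, ∑ q ∈ (Icc 1 Q).filter (fun q => (c i q).Coprime q), E N q (c i q) := by
    rw [hn, ← nsmul_eq_mul, ← sum_const]
    apply sum_le_sum
    intro i hi
    exact (hbad i hi).le
  rw [← hL, ← hn] at h1
  have h3 := h2.trans h1
  have h4 : C * (n * (N / L ^ (U + 1))) ≤ n * (N / L ^ U) / 2 := by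
    have e : n * (N / L ^ (U + 1)) = n * (N / L ^ U) / L := by
      rw [pow_succ]; field_simp
    rw [e]
    have h5 : 0 ≤ n * (N / L ^ U) := by positivity
    rw [← mul_div_assoc, div_le_div_iff₀ hlog0 (by norm_num)]
    nlinarith
  obtain ⟨e, he⟩ : ∃ e : ℝ, e = (en I c Q : ℝ) := ⟨_, rfl⟩
  have he0 : 0 ≤ e := by rw [he]; exact Nat.cast_nonneg _
  rw [← he] at h3
  have h5 : n * (N / L ^ U) ≤ 2 * C * (Real.sqrt (e * (Q * N)) * L ^ (3 * (U + 1 + 4))) := by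
    have h6 : C * (n * (N / L ^ (U + 1)) + Real.sqrt (e * (Q * N)) * L ^ (3 * (U + 1 + 4))) =
        C * (n * (N / L ^ (U + 1))) + C * (Real.sqrt (e * (Q * N)) * L ^ (3 * (U + 1 + 4))) := by ring
    rw [h6] at h3
    linarith
  have h6 : n * N ≤ 2 * C * Real.sqrt (e * (Q * N)) * (L ^ (3 * (U + 1 + 4)) * L ^ U) := by
    have e1 : n * (N / L ^ U) = n * N / L ^ U := by ring
    rw [e1, div_le_iff₀ (by positivity)] at h5
    calc n * N ≤ _ := h5
      _ = _ := by ring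
  have h7 : (n * N) ^ 2 ≤ 4 * C ^ 2 * (e * (Q * N)) * L ^ M := by
    calc (n * N) ^ 2 ≤ (2 * C * Real.sqrt (e * (Q * N)) * (L ^ (3 * (U + 1 + 4)) * L ^ U)) ^ 2 :=
          pow_le_pow_left₀ (by positivity) h6 2
      _ = 4 * C ^ 2 * (Real.sqrt (e * (Q * N)) ^ 2) * (L ^ (3 * (U + 1 + 4)) * L ^ U) ^ 2 := by ring
      _ = _ := by
          rw [Real.sq_sqrt (by positivity), hM, ← pow_add, ← pow_mul]
          congr 2
          ring
  have hK : e ≤ n * Q + n ^ 2 * (N / (Q * L ^ (M + 1))) := by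
    rw [he, hn]
    apply en_le I c Q _ _ (by positivity)
    intro i hi j hj hij
    rw [le_div_iff₀ (by positivity)]
    exact hsep i hi j hj hij
  have h8 : (n * N) ^ 2 ≤ 4 * C ^ 2 * (n * Q ^ 2 * N) * L ^ M + 4 * C ^ 2 * (n * N) ^ 2 / L := by
    calc (n * N) ^ 2 ≤ 4 * C ^ 2 * (e * (Q * N)) * L ^ M := h7
      _ ≤ 4 * C ^ 2 * ((n * Q + n ^ 2 * (N / (Q * L ^ (M + 1)))) * (Q * N)) * L ^ M := by gcongr
      _ = _ := by
          have hLM : L ^ (M + 1) = L ^ M * L := pow_succ _ _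
          rw [hLM]
          field_simp
  have h9 : 4 * C ^ 2 * (n * N) ^ 2 / L ≤ (n * N) ^ 2 / 2 := by
    rw [div_le_div_iff₀ hlog0 (by norm_num)]
    have : 0 ≤ (n * N) ^ 2 := by positivity
    nlinarith
  have h10 : (n * N) ^ 2 ≤ 8 * C ^ 2 * (n * Q ^ 2 * N) * L ^ M := by linarith
  have h11 : n * N ≤ 8 * C ^ 2 * Q ^ 2 * L ^ M := by
    have h12 : (n * N) * (n * N) ≤ (8 * C ^ 2 * Q ^ 2 * L ^ M) * (n * N) := by
      calc (n * N) * (n * N) = (n * N) ^ 2 := by ring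
        _ ≤ _ := h10
        _ = _ := by ring
    exact le_of_mul_le_mul_right h12 (by positivity)
  rw [div_mul_eq_mul_div, le_div_iff₀ hN0]
  calc n * N ≤ 8 * C ^ 2 * Q ^ 2 * L ^ M := h11
    _ ≤ L * Q ^ 2 * L ^ M := by
        gcongr
        nlinarith
    _ = (Q : ℝ) ^ 2 * L ^ (M + 1) := by rw [pow_succ]; ring

/-- two members of an affine family coincide modulo few moduli -/
lemma coinc_le (η : ℝ) (hη : 0 < η) : ∃ C : ℝ, 0 < C ∧ ∀ M : ℝ, 1 ≤ M → ∀ Q : ℕ,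
    ∀ u v : ℕ → ℕ, (∀ q, 1 ≤ q → (u q).Coprime q) → ∀ a b : ℕ, (a : ℝ) ≤ M → (b : ℝ) ≤ M → a ≠ b →
    (coinc (fun q => a * u q + v q) (fun q => b * u q + v q) Q : ℝ) ≤ C * M ^ η := by
  classical
  obtain ⟨C, hC0, hC⟩ := count_pair η hη
  refine ⟨C, hC0, fun M hM Q u v hu a b ha hb hab => ?_⟩
  have h1 := hC M hM Q a b ha hb
  rw [if_neg (Ne.symm hab), zero_add] at h1
  refine le_trans ?_ h1
  rw [sum_boole]
  unfold coinc
  have h2 : ((Icc 1 Q).filter (fun q => a * u q + v q ≡ b * u q + v q [MOD q])).card ≤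
      ((Icc 1 Q).filter (fun q => b % q = a % q)).card := by
    apply card_le_card
    intro q hq
    rw [mem_filter] at hq ⊢
    refine ⟨hq.1, ?_⟩
    have h3 : a * u q ≡ b * u q [MOD q] := Nat.ModEq.add_right_cancel' (v q) hq.2
    have h4 : a ≡ b [MOD q] :=
      Nat.ModEq.cancel_right_of_coprime (by rw [Nat.gcd_comm]; exact hu q (mem_Icc.1 hq.1).1) h3
    exact h4.symm
  exact_mod_cast h2

/-- **few bad members of an affine family** -/
theorem few_affine (U : ℕ) (ε D : ℝ) (hε : 0 < ε) (hD : 0 ≤ D) : ∃ B N₀ : ℕ, ∀ N : ℕ, N₀ ≤ N →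
    ∀ Q : ℕ, (Q : ℝ) ≤ (N : ℝ) ^ (1 - ε) → ∀ u v : ℕ → ℕ, (∀ q, 1 ≤ q → (u q).Coprime q) →
      ∀ A : Finset ℕ, (∀ a ∈ A, (a : ℝ) ≤ (N : ℝ) ^ D ∧
        N / Real.log N ^ U < S N Q (fun q => a * u q + v q)) →
      (A.card : ℝ) ≤ (Q : ℝ) ^ 2 / N * Real.log N ^ B := by
  obtain ⟨B, N₀, H⟩ := few U
  obtain ⟨C, hC0, hC⟩ := coinc_le (ε / (2 * (D + 1))) (by positivity)
  have ev : ∀ᶠ X : ℝ in atTop, (max 1 C) * Real.log X ^ B ≤ X ^ (ε / 2) :=
    Pool.Agent.H398R2.BV.ev_log (max 1 C) B (ε / 2) (by positivity)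
  have evN := tendsto_natCast_atTop_atTop (R := ℝ) |>.eventually ev
  obtain ⟨x2, hx2⟩ := eventually_atTop.1 evN
  refine ⟨B, max (max N₀ x2) 3, fun N hN Q hQ u v hu A hA => ?_⟩
  have hN0' : N₀ ≤ N := (le_max_left _ _).trans ((le_max_left _ _).trans hN)
  have hx := hx2 N ((le_max_right _ _).trans ((le_max_left _ _).trans hN))
  have hN3 : 3 ≤ N := (le_max_right _ _).trans hN
  have hN1 : (1 : ℝ) ≤ N := by exact_mod_cast (by omega : 1 ≤ N)
  have hN0 : (0 : ℝ) < N := by linarith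
  have hl1 := log_ge_one hN3
  have hlB : 0 < Real.log N ^ B := by positivity
  have hx' : Real.log N ^ B ≤ (N : ℝ) ^ (ε / 2) := by
    refine le_trans ?_ hx
    exact le_mul_of_one_le_left hlB.le (le_max_left _ _)
  have hxC : C * Real.log N ^ B ≤ (N : ℝ) ^ (ε / 2) := by
    refine le_trans ?_ hx
    exact mul_le_mul_of_nonneg_right (le_max_right _ _) hlB.le
  have hQB : (Q : ℝ) * Real.log N ^ B ≤ N := by
    calc (Q : ℝ) * Real.log N ^ B ≤ (N : ℝ) ^ (1 - ε) * (N : ℝ) ^ (ε / 2) := by gcongr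
      _ = (N : ℝ) ^ (1 - ε / 2) := by rw [← Real.rpow_add hN0]; congr 1; ring
      _ ≤ (N : ℝ) ^ (1 : ℝ) := Real.rpow_le_rpow_of_exponent_le hN1 (by linarith)
      _ = N := Real.rpow_one _
  apply H N hN0' Q hQB ℕ A (fun a q => a * u q + v q)
  · intro a ha b hb hab
    have hD1 : (1 : ℝ) ≤ (N : ℝ) ^ D := Real.one_le_rpow hN1 hD
    have h1 := hC ((N : ℝ) ^ D) hD1 Q u v hu a b (hA a ha).1 (hA b hb).1 hab
    have h2 : ((N : ℝ) ^ D) ^ (ε / (2 * (D + 1))) ≤ (N : ℝ) ^ (ε / 2) := by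
      rw [← Real.rpow_mul hN0.le]
      apply Real.rpow_le_rpow_of_exponent_le hN1
      rw [mul_div_assoc', div_le_div_iff₀ (by positivity) (by norm_num)]
      nlinarith
    calc (coinc (fun q => a * u q + v q) (fun q => b * u q + v q) Q : ℝ) * (Q * Real.log N ^ B)
        ≤ (C * (N : ℝ) ^ (ε / 2)) * ((N : ℝ) ^ (1 - ε) * Real.log N ^ B) := by
          apply mul_le_mul (h1.trans (mul_le_mul_of_nonneg_left h2 hC0.le)) _ (by positivity)
            (by positivity)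
          gcongr
      _ = (C * Real.log N ^ B) * ((N : ℝ) ^ (ε / 2) * (N : ℝ) ^ (1 - ε)) := by ring
      _ ≤ (N : ℝ) ^ (ε / 2) * ((N : ℝ) ^ (ε / 2) * (N : ℝ) ^ (1 - ε)) := by gcongr
      _ = (N : ℝ) ^ (1 : ℝ) := by
          rw [← Real.rpow_add hN0, ← Real.rpow_add hN0]; congr 1; ring
      _ = N := Real.rpow_one _
  · intro a ha
    exact (hA a ha).2

end Pool.Agent.Y882.EHF
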