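import Pool.Agent.TH926.EH.LgFam
import Pool.Agent.H442R2.EHI.FinalOf
import Pool.Agent.H441R3.BV.Dy

/-! The maximum over the residues inside the sum, outside few exceptional residues. -/

set_option autoImplicit false

open Finset Filter

namespace Pool.Agent.Y882.EHM

open Pool.Agent.TH926.EH
open Pool.Agent.H442R2.EHI (piAP lis)

/-- the number of the primes `p ≤ x` with `p ≡ l (mod d)` -/
noncomputable def primesAP (x : ℝ) (d l : ℕ) : ℕ :=
  ((Icc 1 ⌊x⌋₊).filter (fun p => p.Prime ∧ p ≡ l [MOD d])).card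

/-- the error term with the logarithmic integral -/
noncomputable def Er (x : ℝ) (d l : ℕ) : ℝ :=
  (primesAP x d l : ℝ) - (∫ t in (2 : ℝ)..x, 1 / Real.log t) / (Nat.totient d : ℝ)

lemma two_le_log_pow {x : ℝ} (hx : 3 ≤ x) : 2 ≤ Real.log x ^ 8 := by
  have h1 : 1 - (Real.exp 1 / 3) ≤ Real.log (3 / Real.exp 1) := by
    have h := Real.one_sub_inv_le_log_of_pos (x := 3 / Real.exp 1) (by positivity)
    rwa [inv_div] at h
  have h2 : Real.log (3 / Real.exp 1) = Real.log 3 - 1 := by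
    rw [Real.log_div (by norm_num) (by positivity), Real.log_exp]
  have h3 : (1.0938 : ℝ) ≤ Real.log 3 := by
    have := Real.exp_one_lt_d9
    linarith
  have h4 : Real.log 3 ≤ Real.log x := Real.log_le_log (by norm_num) hx
  calc (2 : ℝ) ≤ 1.0938 ^ 8 := by norm_num
    _ ≤ Real.log x ^ 8 := pow_le_pow_left₀ (by norm_num) (h3.trans h4) 8

lemma li_floor {x : ℝ} (hx : 3 ≤ x) :
    |(∫ t in (2 : ℝ)..x, 1 / Real.log t) - ∫ t in (2 : ℝ)..(⌊x⌋₊ : ℝ), 1 / Real.log t| ≤ 1 := by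
  have hf : (⌊x⌋₊ : ℝ) ≤ x := Nat.floor_le (by linarith)
  have hf3 : (3 : ℝ) ≤ (⌊x⌋₊ : ℝ) := by exact_mod_cast Nat.le_floor (by exact_mod_cast hx)
  have hf1 : x < ⌊x⌋₊ + 1 := Nat.lt_floor_add_one x
  have hint : ∀ a b : ℝ, 2 ≤ a → a ≤ b →
      IntervalIntegrable (fun t : ℝ => 1 / Real.log t) MeasureTheory.volume a b := by
    intro a b ha hab
    apply ContinuousOn.intervalIntegrable
    rw [Set.uIcc_of_le hab]
    apply ContinuousOn.div continuousOn_const
    · apply Real.continuousOn_log.mono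
      intro t ht
      have : 0 < t := by linarith [ht.1]
      exact this.ne'
    · intro t ht
      exact (Real.log_pos (by linarith [ht.1])).ne'
  have e : (∫ t in (2 : ℝ)..x, 1 / Real.log t) - (∫ t in (2 : ℝ)..(⌊x⌋₊ : ℝ), 1 / Real.log t) =
      ∫ t in (⌊x⌋₊ : ℝ)..x, 1 / Real.log t := by
    rw [← intervalIntegral.integral_add_adjacent_intervals (hint 2 ⌊x⌋₊ le_rfl (by linarith))
      (hint ⌊x⌋₊ x (by linarith) hf)]
    ring
  rw [e]
  have h := intervalIntegral.norm_integral_le_of_norm_le_const (a := (⌊x⌋₊ : ℝ)) (b := x)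
    (f := fun t => 1 / Real.log t) (C := 1) (by
      intro t ht
      rw [Set.uIoc_of_le hf] at ht
      have h1 : 1 ≤ Real.log t := by
        rw [Real.le_log_iff_exp_le (by linarith [ht.1])]
        linarith [Real.exp_one_lt_d9, ht.1]
      rw [Real.norm_eq_abs, abs_of_nonneg (by positivity)]
      rw [div_le_one (by linarith)]
      exact h1)
  rw [Real.norm_eq_abs] at h
  refine h.trans ?_
  rw [one_mul, abs_of_nonneg (by linarith)]
  linarith

/-- **the maximum inside** -/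
theorem main (U : ℕ) : ∃ C : ℝ, 0 < C ∧ ∀ x : ℝ, 3 ≤ x → ∃ X : ℕ → Finset ℕ,
    (∀ d, ∀ l ∈ X d, l < d) ∧
    (∀ d : ℕ, (d : ℝ) * Real.log x ^ (7 * (U + 4)) ≤ Real.sqrt x → X d = ∅) ∧
    (∀ D : ℕ, ∑ d ∈ Icc 1 D, ((X d).card : ℝ) ≤
      C * ((D : ℝ) ^ 3 / x * Real.log x ^ (7 * (U + 4)))) ∧
    ∀ l : ℕ → ℕ, ∑ d ∈ (Icc 1 ⌊x / Real.log x ^ (7 * (U + 4))⌋₊).filter
      (fun d => (l d).Coprime d ∧ l d % d ∉ X d), |Er x d (l d)| ≤ C * (x / Real.log x ^ U) := by
  obtain ⟨C1, hC10, hC1⟩ := low_total2' U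
  obtain ⟨C2, hC2⟩ := Pool.Agent.H442R2.EHI.pnt_err (U + 2)
  obtain ⟨C4, hC40, hC4⟩ := log_pow_le (U + 2) 1 one_pos
  refine ⟨C1 * 2 ^ U + |C2| * 2 ^ (U + 4) + 12 * (2 ^ (U + 2) * C4) + 3104, by positivity,
    fun x hx => ?_⟩
  obtain ⟨N, hN⟩ : ∃ N, N = ⌊x⌋₊ := ⟨_, rfl⟩
  have hx0 : 0 < x := by linarith
  have hNx : (N : ℝ) ≤ x := by rw [hN]; exact Nat.floor_le hx0.le
  have hxN : x < N + 1 := by rw [hN]; exact Nat.lt_floor_add_one x
  have hN3 : 3 ≤ N := by rw [hN]; exact Nat.le_floor (by exact_mod_cast hx)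
  have hN3r : (3 : ℝ) ≤ N := by exact_mod_cast hN3
  have hN0 : (0 : ℝ) < N := by linarith
  have hx2N : x ≤ 2 * N := by linarith
  have hx43N : x ≤ 4 / 3 * N := by linarith
  obtain ⟨L, hL⟩ : ∃ L : ℝ, L = Real.log x := ⟨_, rfl⟩
  obtain ⟨m, hm⟩ : ∃ m : ℝ, m = Real.log N := ⟨_, rfl⟩
  have hm1 : 1 ≤ m := by rw [hm]; exact log_ge_one hN3
  have hm0 : 0 < m := by linarith
  have hmL : m ≤ L := by rw [hm, hL]; exact Real.log_le_log hN0 hNx
  have hL1 : 1 ≤ L := hm1.trans hmL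
  have hL0 : 0 < L := by linarith
  have hLm : L ≤ 2 * m := by
    have h1 : x ≤ (N : ℝ) ^ 2 := by nlinarith
    have h2 := Real.log_le_log hx0 h1
    rw [Real.log_pow] at h2
    rw [hL, hm]
    push_cast at h2
    exact h2
  have hL8 : 2 ≤ L ^ 8 := by rw [hL]; exact two_le_log_pow hx
  obtain ⟨V, hV⟩ : ∃ V : ℝ, V = m ^ (U + 4) := ⟨_, rfl⟩
  have hV1 : 1 ≤ V := by rw [hV]; exact one_le_pow₀ hm1
  have hV0 : 0 < V := by linarith
  have hVm : m ≤ V := by
    rw [hV]
    calc m = m ^ 1 := (pow_one m).symm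
      _ ≤ m ^ (U + 4) := pow_le_pow_right₀ hm1 (by omega)
  have hVL : V ≤ L ^ (U + 4) := by rw [hV]; exact pow_le_pow_left₀ hm0.le hmL _
  rw [← hL]
  refine ⟨fun d => Ex2 N V d, fun d l hl => Ex2_lt N V d l hl, ?_, ?_, ?_⟩
  · intro d hd
    apply Ex2_empty N V hV0
    have h1 : (d : ℝ) * V * 2 ≤ Real.sqrt x := by
      refine le_trans ?_ hd
      have e1 : L ^ (7 * (U + 4)) = L ^ (U + 4) * (L ^ (6 * (U + 4))) := by
        rw [← pow_add]; congr 1; ring
      have h2 : 2 ≤ L ^ (6 * (U + 4)) := hL8.trans (pow_le_pow_right₀ hL1 (by omega))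
      rw [e1, mul_assoc]
      apply mul_le_mul_of_nonneg_left _ (Nat.cast_nonneg _)
      exact mul_le_mul hVL h2 (by norm_num) (by positivity)
    have h2 : Real.sqrt x ≤ 2 * Real.sqrt N := by
      have h3 : Real.sqrt x ≤ Real.sqrt (2 ^ 2 * N) := Real.sqrt_le_sqrt (by linarith)
      rwa [Real.sqrt_mul (by positivity), Real.sqrt_sq (by norm_num)] at h3
    linarith
  · intro D
    refine (Ex2_card N hN3 V (by rw [← hm]; exact hVm) D).trans ?_
    have h1 : V ^ 7 ≤ L ^ (7 * (U + 4)) := by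
      calc V ^ 7 ≤ (L ^ (U + 4)) ^ 7 := pow_le_pow_left₀ hV0.le hVL 7
        _ = _ := by rw [← pow_mul]; congr 1; ring
    have h2 : (D : ℝ) ^ 3 / N ≤ 2 * ((D : ℝ) ^ 3 / x) := by
      rw [← mul_div_assoc, div_le_div_iff₀ hN0 hx0]
      have : (0 : ℝ) ≤ (D : ℝ) ^ 3 := by positivity
      nlinarith
    have h3 : 0 ≤ (D : ℝ) ^ 3 / x * L ^ (7 * (U + 4)) := by positivity
    have h4 : 0 ≤ C1 * 2 ^ U + |C2| * 2 ^ (U + 4) + 12 * (2 ^ (U + 2) * C4) := by positivity
    calc 1552 * V ^ 7 * ((D : ℝ) ^ 3 / N) ≤ 1552 * L ^ (7 * (U + 4)) * (2 * ((D : ℝ) ^ 3 / x)) := by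
          gcongr
      _ = 3104 * ((D : ℝ) ^ 3 / x * L ^ (7 * (U + 4))) := by ring
      _ ≤ _ := by
          apply mul_le_mul_of_nonneg_right _ h3
          linarith
  · intro l
    obtain ⟨Q, hQ⟩ : ∃ Q, Q = ⌊x / L ^ (7 * (U + 4))⌋₊ := ⟨_, rfl⟩
    rw [← hQ]
    have hQx : (Q : ℝ) ≤ x / L ^ (7 * (U + 4)) := by
      rw [hQ]; exact Nat.floor_le (by positivity)
    have hQx' : (Q : ℝ) ≤ x := hQx.trans (div_le_self hx0.le (one_le_pow₀ hL1))
    have hQN : (Q : ℝ) * m ^ (U + 1) ≤ N := by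
      rw [le_div_iff₀ (by positivity)] at hQx
      have e1 : L ^ (7 * (U + 4)) = L ^ (U + 1) * L ^ (6 * U + 27) := by
        rw [← pow_add]; congr 1; ring
      have h1 : 2 ≤ L ^ (6 * U + 27) := hL8.trans (pow_le_pow_right₀ hL1 (by omega))
      have h2 : (Q : ℝ) * m ^ (U + 1) * 2 ≤ x := by
        calc (Q : ℝ) * m ^ (U + 1) * 2 ≤ Q * L ^ (U + 1) * L ^ (6 * U + 27) := by
              apply mul_le_mul _ h1 (by norm_num) (by positivity)
              apply mul_le_mul_of_nonneg_left _ (Nat.cast_nonneg _)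
              exact pow_le_pow_left₀ hm0.le hmL _
          _ = Q * L ^ (7 * (U + 4)) := by rw [e1]; ring
          _ ≤ x := hQx
      linarith
    have hQN' : Q ≤ N := by
      have h1 : (Q : ℝ) ≤ N := by
        have : (1 : ℝ) ≤ m ^ (U + 1) := one_le_pow₀ hm1
        have h0 : (0 : ℝ) ≤ Q := Nat.cast_nonneg _
        nlinarith
      exact_mod_cast h1
    classical
    have key := hC1 N hN3 V (by rw [← hm, hV]) Q (by rw [← hm]; exact hQN)
      (fun d => if (l d).Coprime d ∧ l d % d ∉ Ex2 N V d then E N d (l d) else 0)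
      (by
        intro d hd
        rw [mem_Icc] at hd
        have h0 : 0 ≤ low2 V N d + (N : ℝ) / (d * V) :=
          add_nonneg (low2_nonneg _ _ _) (by positivity)
        split_ifs with h
        · exact E_le_of_not_mem2 V N d (l d) hd.1 (by omega) h.1 h.2
        · exact h0)
      (by
        intro d hd
        rw [mem_Icc] at hd
        split_ifs with h
        · exact E_triv N d (l d) hd.1
        · exact hN0.le)
    rw [← hm] at key
    -- pointwise
    obtain ⟨δ, hδ⟩ : ∃ δ : ℝ, δ = |pc N - ∫ t in (2 : ℝ)..x, 1 / Real.log t| := ⟨_, rfl⟩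
    have hδ0 : 0 ≤ δ := by rw [hδ]; exact abs_nonneg _
    have hpt : ∀ d a : ℕ, |Er x d a| ≤ E N d a + δ * (1 / (Nat.totient d : ℝ)) := by
      intro d a
      have e1 : Er x d a = (piAP N d a - pc N / (Nat.totient d : ℝ)) +
          (pc N - ∫ t in (2 : ℝ)..x, 1 / Real.log t) * (1 / (Nat.totient d : ℝ)) := by
        unfold Er primesAP piAP
        rw [← hN]
        ring
      rw [e1]
      refine (abs_add_le _ _).trans ?_
      unfold E
      rw [abs_mul, ← hδ, abs_of_nonneg (by positivity : (0 : ℝ) ≤ 1 / (Nat.totient d : ℝ))]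
    have hδ1 : δ ≤ |C2| * (2 ^ (U + 2) * (x / L ^ (U + 2))) + 3 := by
      have a1 := hC2 N (by omega)
      have a2 := Pool.Agent.H442R2.EHI.FinalOf.lis_sub N (by omega)
      have a3 := li_floor hx
      rw [← hN] at a3
      have a4 : δ ≤ |pc N - lis N| + |lis N - ∫ t in (2 : ℝ)..(N : ℝ), 1 / Real.log t| +
          |(∫ t in (2 : ℝ)..x, 1 / Real.log t) - ∫ t in (2 : ℝ)..(N : ℝ), 1 / Real.log t| := by
        rw [hδ]
        have e1 : pc N - (∫ t in (2 : ℝ)..x, 1 / Real.log t) =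
            (pc N - lis N) + (lis N - ∫ t in (2 : ℝ)..(N : ℝ), 1 / Real.log t) -
            ((∫ t in (2 : ℝ)..x, 1 / Real.log t) - ∫ t in (2 : ℝ)..(N : ℝ), 1 / Real.log t) := by
          ring
        rw [e1]
        refine (abs_sub _ _).trans ?_
        exact add_le_add (abs_add_le _ _) le_rfl
      have a5 : |pc N - lis N| ≤ |C2| * (2 ^ (U + 2) * (x / L ^ (U + 2))) := by
        have b1 : |pc N - lis N| ≤ C2 * N / Real.log N ^ (U + 2) := a1
        refine b1.trans ?_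
        rw [← hm]
        calc C2 * N / m ^ (U + 2) ≤ |C2| * N / m ^ (U + 2) := by
              gcongr
              exact le_abs_self C2
          _ ≤ |C2| * x / m ^ (U + 2) := by gcongr
          _ ≤ |C2| * x / (L / 2) ^ (U + 2) := by
              gcongr
              linarith
          _ = _ := by
              rw [div_pow]
              field_simp
      linarith
    have hphi : ∑ d ∈ Icc 1 Q, 1 / (Nat.totient d : ℝ) ≤ 4 * L ^ 2 := by
      refine (Pool.Agent.H441R3.BV.sum_inv_tot Q).trans ?_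
      have h1 : Real.log Q ≤ L := by
        rcases Nat.eq_zero_or_pos Q with h | h
        · rw [h, Nat.cast_zero, Real.log_zero]; exact hL0.le
        · rw [hL]
          exact Real.log_le_log (by exact_mod_cast h) hQx'
      have h2 : 0 ≤ Real.log Q := Real.log_natCast_nonneg Q
      calc (1 + Real.log Q) ^ 2 ≤ (2 * L) ^ 2 := pow_le_pow_left₀ (by linarith) (by linarith) 2
        _ = _ := by ring
    have hsum : ∑ d ∈ (Icc 1 Q).filter (fun d => (l d).Coprime d ∧ l d % d ∉ Ex2 N V d),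
        |Er x d (l d)| ≤ (∑ d ∈ Icc 1 Q,
          (if (l d).Coprime d ∧ l d % d ∉ Ex2 N V d then E N d (l d) else 0)) +
          δ * (4 * L ^ 2) := by
      calc ∑ d ∈ (Icc 1 Q).filter (fun d => (l d).Coprime d ∧ l d % d ∉ Ex2 N V d),
          |Er x d (l d)| ≤ ∑ d ∈ (Icc 1 Q).filter
            (fun d => (l d).Coprime d ∧ l d % d ∉ Ex2 N V d),
            (E N d (l d) + δ * (1 / (Nat.totient d : ℝ))) := sum_le_sum fun d _ => hpt d (l d)
        _ = ∑ d ∈ (Icc 1 Q).filter (fun d => (l d).Coprime d ∧ l d % d ∉ Ex2 N V d),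
            E N d (l d) + δ * ∑ d ∈ (Icc 1 Q).filter
            (fun d => (l d).Coprime d ∧ l d % d ∉ Ex2 N V d), (1 / (Nat.totient d : ℝ)) := by
            rw [sum_add_distrib, mul_sum]
        _ ≤ _ := by
            rw [sum_filter]
            apply add_le_add le_rfl
            apply mul_le_mul_of_nonneg_left _ hδ0
            refine le_trans ?_ hphi
            exact sum_le_sum_of_subset_of_nonneg (filter_subset _ _) fun _ _ _ => by positivity
    refine hsum.trans ?_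
    have k1 : C1 * (N / m ^ U) ≤ C1 * 2 ^ U * (x / L ^ U) := by
      calc C1 * (N / m ^ U) ≤ C1 * (x / (L / 2) ^ U) := by
            gcongr
            linarith
        _ = _ := by
            rw [div_pow]
            field_simp
    have k2 : L ^ (U + 2) ≤ 2 ^ (U + 2) * C4 * x := by
      have h1 := hC4 N (by omega)
      rw [Real.rpow_one, ← hm] at h1
      calc L ^ (U + 2) ≤ (2 * (1 + m)) ^ (U + 2) := pow_le_pow_left₀ hL0.le (by linarith) _
        _ = 2 ^ (U + 2) * (1 + m) ^ (U + 2) := mul_pow _ _ _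
        _ ≤ 2 ^ (U + 2) * (C4 * N) := by gcongr
        _ ≤ 2 ^ (U + 2) * (C4 * x) := by gcongr
        _ = _ := by ring
    have k3 : L ^ 2 ≤ 2 ^ (U + 2) * C4 * (x / L ^ U) := by
      rw [← mul_div_assoc, le_div_iff₀ (by positivity), ← pow_add]
      calc L ^ (2 + U) = L ^ (U + 2) := by rw [add_comm]
        _ ≤ _ := k2
    have k4 : δ * (4 * L ^ 2) ≤ |C2| * 2 ^ (U + 4) * (x / L ^ U) +
        12 * (2 ^ (U + 2) * C4 * (x / L ^ U)) := by
      calc δ * (4 * L ^ 2) ≤ (|C2| * (2 ^ (U + 2) * (x / L ^ (U + 2))) + 3) * (4 * L ^ 2) := by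
            gcongr
        _ = |C2| * 2 ^ (U + 4) * (x / L ^ (U + 2) * L ^ 2) + 12 * L ^ 2 := by ring
        _ = |C2| * 2 ^ (U + 4) * (x / L ^ U) + 12 * L ^ 2 := by
            congr 2
            rw [pow_add]
            field_simp
        _ ≤ _ := by linarith
    have k5 : 0 ≤ x / L ^ U := by positivity
    calc _ ≤ C1 * (N / m ^ U) + δ * (4 * L ^ 2) := add_le_add key le_rfl
      _ ≤ C1 * 2 ^ U * (x / L ^ U) + (|C2| * 2 ^ (U + 4) * (x / L ^ U) +
        12 * (2 ^ (U + 2) * C4 * (x / L ^ U))) := add_le_add k1 k4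
      _ = (C1 * 2 ^ U + |C2| * 2 ^ (U + 4) + 12 * (2 ^ (U + 2) * C4)) * (x / L ^ U) := by ring
      _ ≤ _ := by
          apply mul_le_mul_of_nonneg_right _ k5
          linarith

end Pool.Agent.Y882.EHM
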