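import Pool.Agent.H732R2.MT_B2
import Pool.Agent.Helper112.Bilinear

/-! The error term: differences `m ≡ n (mod d)` averaged over `n ∈ S`, by the large sieve. -/

set_option autoImplicit false

open Finset

namespace Pool.Agent.Y882

open Pool.Agent.Helper112 Pool.Agent.Helper112.BLB
open Pool.Agent.H732R2.B2 (Sc card_prim)

/-- the discrepancy -/
noncomputable def Ed (X : ℕ) (α : ℕ → ℝ) (d n : ℕ) : ℝ :=
  ∑ b ∈ (Icc 1 X).filter (fun b => b ≡ n [MOD d]), α b -
    1 / (Nat.totient d : ℝ) * ∑ b ∈ (Icc 1 X).filter (fun b => b.Coprime d), α b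

open Classical in
/-- the indicator function -/
noncomputable def ind (S : Finset ℕ) (n : ℕ) : ℝ := if n ∈ S then 1 else 0

theorem char_inv_conj (d : ℕ) [NeZero d] (χ : DirichletCharacter ℂ d) (n : ℕ)
    (hn : n.Coprime d) : χ ((n : ZMod d)⁻¹) = (starRingEnd ℂ) (χ (n : ZMod d)) := by
  have hu : IsUnit (n : ZMod d) := (ZMod.isUnit_iff_coprime n d).mpr hn
  have h1 : χ ((n : ZMod d)⁻¹) * χ (n : ZMod d) = 1 := by
    rw [← map_mul, ← hu.unit_spec, ZMod.inv_coe_unit, ← Units.val_mul, inv_mul_cancel,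
      Units.val_one, map_one]
  have h2 : (starRingEnd ℂ) (χ (n : ZMod d)) * χ (n : ZMod d) = 1 := by
    rw [mul_comm, Complex.mul_conj, Complex.normSq_eq_norm_sq, ← hu.unit_spec,
      χ.unit_norm_eq_one]
    norm_num
  have h3 : χ (n : ZMod d) ≠ 0 := by
    intro h
    rw [h, mul_zero] at h1
    exact zero_ne_one h1
  exact mul_right_cancel₀ h3 (h1.trans h2.symm)

theorem ed_char (X : ℕ) (α : ℕ → ℝ) (d : ℕ) [NeZero d] (n : ℕ) (hn : n.Coprime d) :
    ((Ed X α d n : ℝ) : ℂ) = (1 / (Nat.totient d : ℂ)) *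
      ∑ χ ∈ (univ : Finset (DirichletCharacter ℂ d)).filter (fun χ => χ ≠ 1),
        (starRingEnd ℂ) (χ (n : ZMod d)) * A X α d χ := by
  have e2 : Ed X α d n = ∑ b ∈ Icc 1 X, α b *
      ((if b ≡ n [MOD d] then (1 : ℝ) else 0) -
        (if b.Coprime d then (1 : ℝ) / (Nat.totient d : ℝ) else 0)) := by
    unfold Ed
    rw [sum_filter, sum_filter, mul_sum, ← sum_sub_distrib]
    apply sum_congr rfl
    intro b _
    split_ifs <;> ring
  rw [e2]
  push_cast
  have e3 : ∀ b : ℕ, ((if b ≡ n [MOD d] then (1 : ℂ) else 0) -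
      (if b.Coprime d then (1 : ℂ) / (Nat.totient d : ℂ) else 0)) =
      (1 / (Nat.totient d : ℂ)) *
    ∑ χ ∈ (univ : Finset (DirichletCharacter ℂ d)).filter (fun χ => χ ≠ 1),
      χ ((n : ZMod d)⁻¹) * χ (b : ZMod d) := by
    intro b
    rw [← bracket d n hn b]
    push_cast
    congr 1 <;> split_ifs <;> simp
  calc _ = ∑ b ∈ Icc 1 X, (α b : ℂ) * ((1 / (Nat.totient d : ℂ)) *
    ∑ χ ∈ (univ : Finset (DirichletCharacter ℂ d)).filter (fun χ => χ ≠ 1),
      χ ((n : ZMod d)⁻¹) * χ (b : ZMod d)) := by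
        apply sum_congr rfl
        intro b _
        rw [← e3 b]
        congr 2 <;> split_ifs <;> simp
    _ = _ := by
        simp_rw [mul_sum]
        rw [sum_comm]
        apply sum_congr rfl
        intro χ _
        unfold A
        rw [mul_sum, mul_sum]
        apply sum_congr rfl
        intro b _
        rw [char_inv_conj d χ n hn]
        ring

theorem ed_sum (X Z : ℕ) (α : ℕ → ℝ) (S : Finset ℕ) (hS : S ⊆ Icc 1 Z) (d : ℕ) (hd : d ≠ 0) :
    |∑ n ∈ S.filter (fun n => n.Coprime d), Ed X α d n| ≤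
      ∑ f ∈ d.divisors.filter (fun f => f ≠ 1),
        (1 / (Nat.totient d : ℝ)) * P X Z (res (d / f) α) (res (d / f) (ind S)) f := by
  classical
  have : NeZero d := ⟨hd⟩
  have key : ((∑ n ∈ S.filter (fun n => n.Coprime d), Ed X α d n : ℝ) : ℂ) =
      (1 / (Nat.totient d : ℂ)) *
      ∑ χ ∈ (univ : Finset (DirichletCharacter ℂ d)).filter (fun χ => χ ≠ 1),
        A X α d χ * (starRingEnd ℂ) (A Z (ind S) d χ) := by
    rw [Complex.ofReal_sum, sum_congr rfl fun n hn => ed_char X α d n (mem_filter.1 hn).2,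
      ← mul_sum, sum_comm]
    congr 1
    apply sum_congr rfl
    intro χ _
    rw [← sum_mul, mul_comm]
    congr 1
    unfold A
    rw [map_sum, sum_filter]
    have h1 : ∑ n ∈ Icc 1 Z, (starRingEnd ℂ) (((ind S n : ℝ) : ℂ) * χ (n : ZMod d)) =
        ∑ n ∈ S, (starRingEnd ℂ) (((ind S n : ℝ) : ℂ) * χ (n : ZMod d)) := by
      symm
      apply sum_subset hS
      intro n _ hn
      unfold ind
      rw [if_neg hn]
      simp
    rw [h1]
    apply sum_congr rfl
    intro n hn
    unfold ind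
    rw [if_pos hn]
    split_ifs with h
    · simp
    · rw [MulChar.map_nonunit _ (fun hu => h ((ZMod.isUnit_iff_coprime n _).mp hu))]
      simp
  rw [← Real.norm_eq_abs, ← Complex.norm_real, key, norm_mul]
  have n1 : ‖(1 / (Nat.totient d : ℂ))‖ = 1 / (Nat.totient d : ℝ) := by
    rw [norm_div, norm_one, Complex.norm_natCast]
  rw [n1, ← mul_sum]
  apply mul_le_mul_of_nonneg_left _ (by positivity)
  refine (norm_sum_le _ _).trans ?_
  have h3 : ∀ χ ∈ (univ : Finset (DirichletCharacter ℂ d)).filter (fun χ => χ ≠ 1),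
      ‖A X α d χ * (starRingEnd ℂ) (A Z (ind S) d χ)‖ = ‖A X α d χ‖ * ‖A Z (ind S) d χ‖ := by
    intro χ _
    rw [norm_mul, RCLike.norm_conj]
  rw [sum_congr rfl h3]
  apply step2 d (fun χ => ‖A X α d χ‖ * ‖A Z (ind S) d χ‖) (fun χ => by positivity)
    (fun f ψ => ‖A X (res (d / f) α) f ψ‖ * ‖A Z (res (d / f) (ind S)) f ψ‖)
  intro f h ψ
  obtain ⟨g, rfl⟩ := h
  have hf : 0 < f := by
    rcases Nat.eq_zero_or_pos f with h | h
    · subst h; simp at hd
    · exact h
  rw [Nat.mul_div_cancel_left g hf, A_changeLevel, A_changeLevel]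

theorem ind_le (S : Finset ℕ) (n : ℕ) : 0 ≤ ind S n ∧ ind S n ≤ 1 := by
  unfold ind
  split_ifs <;> norm_num

theorem sum_ind_sq (Z : ℕ) (S : Finset ℕ) (hS : S ⊆ Icc 1 Z) :
    ∑ c ∈ Icc 1 Z, ind S c ^ 2 = S.card := by
  classical
  rw [← sum_subset hS (f := fun c => ind S c ^ 2)]
  · rw [sum_congr rfl (g := fun _ => (1 : ℝ))]
    · simp
    · intro n hn
      unfold ind
      rw [if_pos hn]; norm_num
  · intro n _ hn
    unfold ind
    rw [if_neg hn]; norm_num

theorem A_le_card (Z g f : ℕ) (S : Finset ℕ) (hS : S ⊆ Icc 1 Z) (ψ : DirichletCharacter ℂ f) :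
    ‖A Z (res g (ind S)) f ψ‖ ≤ S.card := by
  classical
  unfold A
  refine (norm_sum_le _ _).trans ?_
  have h1 : ∑ n ∈ Icc 1 Z, ‖((res g (ind S) n : ℝ) : ℂ) * ψ (n : ZMod f)‖ ≤
      ∑ n ∈ Icc 1 Z, ind S n := by
    apply sum_le_sum
    intro n _
    rw [norm_mul, Complex.norm_real, Real.norm_eq_abs]
    have h2 : |res g (ind S) n| ≤ ind S n := by
      unfold res
      split_ifs
      · rw [abs_of_nonneg (ind_le S n).1]
      · rw [abs_zero]; exact (ind_le S n).1
    calc |res g (ind S) n| * ‖ψ (n : ZMod f)‖ ≤ ind S n * 1 :=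
          mul_le_mul h2 (ψ.norm_le_one _) (norm_nonneg _) (ind_le S n).1
      _ = _ := mul_one _
  refine h1.trans ?_
  rw [← sum_subset hS (f := fun c => ind S c)]
  · rw [sum_congr rfl (g := fun _ => (1 : ℝ))]
    · simp
    · intro n hn
      unfold ind
      rw [if_pos hn]
  · intro n _ hn
    unfold ind
    rw [if_neg hn]

theorem A_res_le (X g f : ℕ) (α : ℕ → ℝ) (ψ : DirichletCharacter ℂ f) :
    ‖A X (res g α) f ψ‖ ≤ ‖A X α f ψ‖ +
      ∑ b ∈ (Icc 1 X).filter (fun b => ¬ b.Coprime g), |α b| := by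
  have h1 : A X (res g α) f ψ = A X α f ψ -
      ∑ b ∈ (Icc 1 X).filter (fun b => ¬ b.Coprime g), (α b : ℂ) * ψ (b : ZMod f) := by
    unfold A
    rw [sum_filter, ← sum_sub_distrib]
    apply sum_congr rfl
    intro b _
    unfold res
    by_cases h : b.Coprime g
    · rw [if_pos h, if_neg (by simpa using h), sub_zero]
    · rw [if_neg h, if_pos h]
      simp
  rw [h1]
  refine (norm_sub_le _ _).trans (add_le_add le_rfl ?_)
  refine (norm_sum_le _ _).trans (sum_le_sum fun b _ => ?_)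
  rw [norm_mul, Complex.norm_real, Real.norm_eq_abs]
  exact mul_le_of_le_one_right (abs_nonneg _) (ψ.norm_le_one _)

open Classical in
/-- the sum over primitive characters -/
noncomputable def PA (X : ℕ) (α : ℕ → ℝ) (f : ℕ) : ℝ :=
  ∑ ψ ∈ (univ : Finset (DirichletCharacter ℂ f)).filter (fun ψ => ψ.IsPrimitive), ‖A X α f ψ‖

/-- the error term on average over `S` -/
theorem err_total (X Z F0 D : ℕ) (α : ℕ → ℝ) (S : Finset ℕ) (hS : S ⊆ Icc 1 Z) (hF0 : 1 ≤ F0)
    (hF0D : F0 ≤ D) (c : ℕ → ℝ) (K : ℝ) (hK : 0 ≤ K) (hc : ∀ d, |c d| ≤ K)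
    (hsq : ∀ d, c d ≠ 0 → Squarefree d) (R : ℝ)
    (hR : ∀ g : ℕ, 1 ≤ g → g ≤ D → ∑ b ∈ (Icc 1 X).filter (fun b => ¬ b.Coprime g), |α b| ≤ R) :
    |∑ d ∈ Icc 1 D, c d * ∑ n ∈ S.filter (fun n => n.Coprime d), Ed X α d n| ≤
      K * (Sc 1 D * (S.card * (∑ f ∈ Icc 2 F0, (1 / (Nat.totient f : ℝ)) * PA X α f + F0 * R) +
        12 * (1 + Real.log D) * (Real.sqrt (X * Z) / F0 + (Real.sqrt X + Real.sqrt Z) + D) *
        (Real.sqrt (∑ b ∈ Icc 1 X, α b ^ 2) * Real.sqrt S.card))) := by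
  classical
  have hD1 : 1 ≤ D := hF0.trans hF0D
  set G : ℕ → ℕ → ℝ := fun g f => (1 / (Nat.totient g : ℝ)) * ((1 / (Nat.totient f : ℝ)) *
    P X Z (res g α) (res g (ind S)) f) with hG
  have hG0 : ∀ g f, 0 ≤ G g f := fun g f =>
    mul_nonneg (by positivity) (mul_nonneg (by positivity) (P_nonneg _ _ _ _ _))
  set M : Finset ℕ := (Icc 1 D).filter Squarefree with hM
  have s1 : |∑ d ∈ Icc 1 D, c d * ∑ n ∈ S.filter (fun n => n.Coprime d), Ed X α d n| ≤
      K * ∑ d ∈ M, ∑ f ∈ d.divisors.filter (fun f => f ≠ 1), G (d / f) f := by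
    have h1 : ∑ d ∈ Icc 1 D, c d * ∑ n ∈ S.filter (fun n => n.Coprime d), Ed X α d n =
        ∑ d ∈ M, c d * ∑ n ∈ S.filter (fun n => n.Coprime d), Ed X α d n := by
      rw [hM, sum_filter]
      apply sum_congr rfl
      intro d _
      split_ifs with h
      · rfl
      · have : c d = 0 := by
          by_contra hne
          exact h (hsq d hne)
        rw [this, zero_mul]
    rw [h1, mul_sum]
    refine (abs_sum_le_sum_abs _ _).trans (sum_le_sum fun d hd => ?_)
    rw [hM, mem_filter, mem_Icc] at hd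
    rw [abs_mul]
    apply mul_le_mul (hc d) _ (abs_nonneg _) hK
    refine (ed_sum X Z α S hS d (by omega)).trans (sum_le_sum fun f hf => ?_)
    rw [mem_filter, Nat.mem_divisors] at hf
    obtain ⟨⟨⟨g, rfl⟩, -⟩, hf1⟩ := hf
    have hf0 : 0 < f := Nat.pos_of_ne_zero (by rintro rfl; simp at hd)
    have hg0 : 0 < g := Nat.pos_of_ne_zero (by rintro rfl; simp at hd)
    rw [Nat.mul_div_cancel_left g hf0]
    have hcop2 : f.Coprime g := Nat.coprime_of_squarefree_mul hd.2
    rw [Nat.totient_mul hcop2]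
    apply le_of_eq
    simp only [hG]
    push_cast
    have htf : (0 : ℝ) < Nat.totient f := by exact_mod_cast Nat.totient_pos.mpr hf0
    have htg0 : (0 : ℝ) < Nat.totient g := by exact_mod_cast Nat.totient_pos.mpr hg0
    field_simp
  have s4 : ∑ d ∈ M, ∑ f ∈ d.divisors.filter (fun f => f ≠ 1), G (d / f) f ≤
      ∑ g ∈ M, ∑ f ∈ Icc 2 D, G g f := by
    rw [sum_sigma', ← sum_product']
    have e6 : ∑ x ∈ M.sigma (fun m => m.divisors.filter (fun f => f ≠ 1)), G (x.1 / x.2) x.2 =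
        ∑ p ∈ (M.sigma (fun m => m.divisors.filter (fun f => f ≠ 1))).image
          (fun x : (_ : ℕ) × ℕ => (x.1 / x.2, x.2)), G p.1 p.2 := by
      rw [sum_image]
      rintro ⟨m, f⟩ hx ⟨m', f'⟩ hx' heq
      simp only [Finset.mem_coe, mem_sigma, mem_filter, Nat.mem_divisors] at hx hx'
      simp only [Prod.mk.injEq] at heq
      obtain ⟨h7, h8⟩ := heq
      subst h8
      have : m = m' := by
        rw [← Nat.div_mul_cancel hx.2.1.1, h7, Nat.div_mul_cancel hx'.2.1.1]
      subst this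
      rfl
    rw [e6]
    apply sum_le_sum_of_subset_of_nonneg
    · intro p hp
      rw [mem_image] at hp
      obtain ⟨⟨m, f⟩, hx, rfl⟩ := hp
      simp only [mem_sigma, mem_filter, Nat.mem_divisors] at hx
      obtain ⟨hm, ⟨hfm, hm0⟩, hf1⟩ := hx
      rw [hM, mem_filter, mem_Icc] at hm
      have hf0 : 0 < f := Nat.pos_of_dvd_of_pos hfm hm.1.1
      simp only [mem_product, mem_Icc, hM, mem_filter]
      refine ⟨⟨⟨Nat.div_pos (Nat.le_of_dvd hm.1.1 hfm) hf0, (Nat.div_le_self m f).trans hm.1.2⟩,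
        ?_⟩, by omega, (Nat.le_of_dvd hm.1.1 hfm).trans hm.1.2⟩
      exact hm.2.squarefree_of_dvd (Nat.div_dvd_of_dvd hfm)
    · intro p _ _
      exact hG0 _ _
  set BVs : ℝ := ∑ f ∈ Icc 2 F0, (1 / (Nat.totient f : ℝ)) * PA X α f with hBVs
  set T2 : ℝ := 12 * (1 + Real.log D) * (Real.sqrt (X * Z) / F0 +
    (Real.sqrt X + Real.sqrt Z) + D) *
    (Real.sqrt (∑ b ∈ Icc 1 X, α b ^ 2) * Real.sqrt S.card) with hT2
  have s5 : ∀ g ∈ M, ∑ f ∈ Icc 2 D, G g f ≤ (1 / (Nat.totient g : ℝ)) *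
      (S.card * (BVs + F0 * R) + T2) := by
    intro g hg
    rw [hM, mem_filter, mem_Icc] at hg
    rw [hG, ← mul_sum]
    apply mul_le_mul_of_nonneg_left _ (by positivity)
    have hsplit : Icc 2 D ⊆ Icc 2 F0 ∪ Icc (F0 + 1) D := by
      intro f hf
      rw [mem_Icc] at hf
      rw [mem_union, mem_Icc, mem_Icc]
      omega
    have hnn : ∀ f, 0 ≤ (1 / (Nat.totient f : ℝ)) * P X Z (res g α) (res g (ind S)) f :=
      fun f => mul_nonneg (by positivity) (P_nonneg _ _ _ _ _)
    have u1 : ∑ f ∈ Icc 2 D, (1 / (Nat.totient f : ℝ)) * P X Z (res g α) (res g (ind S)) f ≤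
        ∑ f ∈ Icc 2 F0, (1 / (Nat.totient f : ℝ)) * P X Z (res g α) (res g (ind S)) f +
        ∑ f ∈ Icc (F0 + 1) D, (1 / (Nat.totient f : ℝ)) * P X Z (res g α) (res g (ind S)) f := by
      refine (sum_le_sum_of_subset_of_nonneg hsplit (fun f _ _ => hnn f)).trans ?_
      rw [← sum_union_inter]
      have : 0 ≤ ∑ f ∈ Icc 2 F0 ∩ Icc (F0 + 1) D,
        (1 / (Nat.totient f : ℝ)) * P X Z (res g α) (res g (ind S)) f :=
        sum_nonneg fun f _ => hnn f
      linarith
    have u2 : ∑ f ∈ Icc 2 F0, (1 / (Nat.totient f : ℝ)) * P X Z (res g α) (res g (ind S)) f ≤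
        S.card * (BVs + F0 * R) := by
      have v1 : ∀ f ∈ Icc 2 F0, (1 / (Nat.totient f : ℝ)) *
          P X Z (res g α) (res g (ind S)) f ≤
          S.card * ((1 / (Nat.totient f : ℝ)) * PA X α f + R) := by
        intro f hf
        rw [mem_Icc] at hf
        have htf : (0 : ℝ) < Nat.totient f := by
          exact_mod_cast Nat.totient_pos.mpr (by omega)
        have hR0 : 0 ≤ R := (sum_nonneg fun b _ => abs_nonneg _).trans (hR g hg.1.1 hg.1.2)
        have v2 : P X Z (res g α) (res g (ind S)) f ≤ S.card * (PA X α f + Nat.totient f * R) := by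
          unfold P PA
          calc ∑ ψ ∈ (univ : Finset (DirichletCharacter ℂ f)).filter (fun χ => χ.IsPrimitive),
              ‖A X (res g α) f ψ‖ * ‖A Z (res g (ind S)) f ψ‖ ≤
              ∑ ψ ∈ (univ : Finset (DirichletCharacter ℂ f)).filter (fun χ => χ.IsPrimitive),
              (‖A X α f ψ‖ + R) * S.card := by
                apply sum_le_sum
                intro ψ _
                apply mul_le_mul _ (A_le_card Z g f S hS ψ) (norm_nonneg _) (by positivity)
                exact (A_res_le X g f α ψ).trans (add_le_add le_rfl (hR g hg.1.1 hg.1.2))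
            _ = S.card * (∑ ψ ∈ (univ : Finset (DirichletCharacter ℂ f)).filter
                (fun χ => χ.IsPrimitive), ‖A X α f ψ‖ +
                (((univ : Finset (DirichletCharacter ℂ f)).filter
                (fun χ => χ.IsPrimitive)).card : ℝ) * R) := by
                rw [← sum_mul, sum_add_distrib, sum_const, nsmul_eq_mul]
                ring
            _ ≤ _ := by
                apply mul_le_mul_of_nonneg_left _ (by positivity)
                apply add_le_add le_rfl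
                apply mul_le_mul_of_nonneg_right _ hR0
                exact card_prim f (by omega)
        calc (1 / (Nat.totient f : ℝ)) * P X Z (res g α) (res g (ind S)) f ≤
            (1 / (Nat.totient f : ℝ)) * (S.card * (PA X α f + Nat.totient f * R)) :=
              mul_le_mul_of_nonneg_left v2 (by positivity)
          _ = S.card * ((1 / (Nat.totient f : ℝ)) * PA X α f + R) := by
              field_simp
      refine (sum_le_sum v1).trans ?_
      rw [← mul_sum, sum_add_distrib, sum_const, nsmul_eq_mul, Nat.card_Icc]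
      apply mul_le_mul_of_nonneg_left _ (by positivity)
      apply add_le_add le_rfl
      have hR0 : 0 ≤ R := (sum_nonneg fun b _ => abs_nonneg _).trans (hR g hg.1.1 hg.1.2)
      apply mul_le_mul_of_nonneg_right _ hR0
      have : F0 + 1 - 2 ≤ F0 := by omega
      exact_mod_cast this
    have u3 : ∑ f ∈ Icc (F0 + 1) D, (1 / (Nat.totient f : ℝ)) *
        P X Z (res g α) (res g (ind S)) f ≤ T2 := by
      refine (step45 X Z (res g α) (res g (ind S)) (F0 + 1) D (by omega) hD1).trans ?_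
      rw [hT2]
      have hlogD : 0 ≤ Real.log D := Real.log_natCast_nonneg D
      have w1 : Real.sqrt (∑ b ∈ Icc 1 X, res g α b ^ 2) ≤ Real.sqrt (∑ b ∈ Icc 1 X, α b ^ 2) :=
        res_sq _ _ _
      have w2 : Real.sqrt (∑ c ∈ Icc 1 Z, res g (ind S) c ^ 2) ≤ Real.sqrt S.card := by
        refine (res_sq Z g (ind S)).trans ?_
        rw [sum_ind_sq Z S hS]
      have w3 : Real.sqrt (X * Z) / ((F0 + 1 : ℕ) : ℝ) ≤ Real.sqrt (X * Z) / F0 := by
        apply div_le_div_of_nonneg_left (Real.sqrt_nonneg _) (by exact_mod_cast hF0)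
        push_cast
        linarith
      apply mul_le_mul _ (mul_le_mul w1 w2 (Real.sqrt_nonneg _) (Real.sqrt_nonneg _))
        (by positivity) (by positivity)
      apply mul_le_mul_of_nonneg_left _ (by positivity)
      linarith
    linarith
  refine s1.trans (mul_le_mul_of_nonneg_left ?_ hK)
  refine s4.trans ((sum_le_sum s5).trans ?_)
  rw [← sum_mul]
  have s6 : ∑ g ∈ M, (1 / (Nat.totient g : ℝ)) = Sc 1 D := by
    unfold Sc
    rw [hM]
    apply sum_congr rfl
    intro g _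
    rw [one_pow]
  rw [s6]

end Pool.Agent.Y882
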