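import Pool.Agent.H732R2.MT_B2
import Pool.Agent.H732R2.MT_B3
import Pool.Agent.Y882.Err

/-! The tent weight: primes in `(x / 2, x)`. -/

set_option autoImplicit false

open Finset Filter Topology

namespace Pool.Agent.Y882

open Pool.Agent.H410R2
open Pool.Agent.Helper112 Pool.Agent.Helper112.BLB

/-- truncated logarithm -/
noncomputable def L0 (t : ℝ) : ℝ := max 0 (Real.log t)

/-- the tent weight -/
noncomputable def tw (x : ℝ) (m : ℕ) : ℝ := L0 (x / m) - 2 * L0 (x / √2 / m) + L0 (x / 2 / m)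

/-- the weighted von Mangoldt function -/
noncomputable def al (x : ℝ) (m : ℕ) : ℝ := ArithmeticFunction.vonMangoldt m * tw x m

theorem tw_cases (x : ℝ) (hx : 0 < x) (m : ℕ) (hm : 1 ≤ m) :
    0 ≤ tw x m ∧ tw x m ≤ 1 ∧ ((m : ℝ) ≤ x / 2 → tw x m = 0) ∧ (x ≤ m → tw x m = 0) ∧
      (tw x m ≤ L0 (x / m)) := by
  have hm0 : (0 : ℝ) < m := by exact_mod_cast hm
  have hs2 : (0 : ℝ) < √2 := by positivity
  set t := Real.log (x / m) with ht
  set a := Real.log 2 / 2 with ha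
  have hl2 : 0 < Real.log 2 := Real.log_pos (by norm_num)
  have hl21 : Real.log 2 < 0.7 := by
    have := Real.log_two_lt_d9
    linarith
  have ha0 : 0 < a := by rw [ha]; positivity
  have e1 : Real.log (x / √2 / m) = t - a := by
    rw [div_right_comm, Real.log_div (by positivity) hs2.ne', ha,
      Real.log_sqrt (by norm_num)]
  have e2 : Real.log (x / 2 / m) = t - 2 * a := by
    rw [div_right_comm, Real.log_div (by positivity) (by norm_num), ha]
    ring
  have key : tw x m = max 0 t - 2 * max 0 (t - a) + max 0 (t - 2 * a) := by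
    unfold tw L0
    rw [e1, e2]
  have h1 : (m : ℝ) ≤ x / 2 → 2 * a ≤ t := by
    intro h
    have h2 : 0 ≤ Real.log (x / 2 / m) := Real.log_nonneg (by
      rw [le_div_iff₀ hm0]; linarith)
    rw [e2] at h2
    linarith
  have h2 : x ≤ m → t ≤ 0 := by
    intro h
    exact Real.log_nonpos (by positivity) ((div_le_one hm0).2 h)
  have hL : L0 (x / m) = max 0 t := rfl
  rw [key, hL]
  rcases le_or_gt t 0 with h3 | h3
  · rw [max_eq_left h3, max_eq_left (by linarith : t - a ≤ 0),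
      max_eq_left (by linarith : t - 2 * a ≤ 0)]
    norm_num
  · rcases le_or_gt t a with h4 | h4
    · rw [max_eq_right h3.le, max_eq_left (by linarith : t - a ≤ 0),
        max_eq_left (by linarith : t - 2 * a ≤ 0)]
      refine ⟨by linarith, by linarith, ?_, ?_, by linarith⟩
      · intro h; have := h1 h; linarith
      · intro h; have := h2 h; linarith
    · rcases le_or_gt t (2 * a) with h5 | h5
      · rw [max_eq_right h3.le, max_eq_right (by linarith : 0 ≤ t - a),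
          max_eq_left (by linarith : t - 2 * a ≤ 0)]
        refine ⟨by linarith, by linarith, ?_, ?_, by linarith⟩
        · intro h; have := h1 h; linarith
        · intro h; have := h2 h; linarith
      · rw [max_eq_right h3.le, max_eq_right (by linarith : 0 ≤ t - a),
          max_eq_right (by linarith : 0 ≤ t - 2 * a)]
        refine ⟨by linarith, by linarith, ?_, ?_, by linarith⟩
        · intro _; ring
        · intro h; have := h2 h; linarith

theorem al_nonneg (x : ℝ) (hx : 0 < x) (m : ℕ) (hm : 1 ≤ m) : 0 ≤ al x m :=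
  mul_nonneg ArithmeticFunction.vonMangoldt_nonneg (tw_cases x hx m hm).1

theorem al_le (x : ℝ) (hx : 0 < x) (m : ℕ) (hm : 1 ≤ m) :
    al x m ≤ ArithmeticFunction.vonMangoldt m :=
  mul_le_of_le_one_right ArithmeticFunction.vonMangoldt_nonneg (tw_cases x hx m hm).2.1

theorem al_le_log (x : ℝ) (hx : 0 < x) (m : ℕ) (hm : 1 ≤ m) (hmx : (m : ℝ) ≤ x) :
    al x m ≤ ArithmeticFunction.vonMangoldt m * Real.log (x / m) := by
  have hm0 : (0 : ℝ) < m := by exact_mod_cast hm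
  have h1 := (tw_cases x hx m hm).2.2.2.2
  have h2 : L0 (x / m) = Real.log (x / m) :=
    max_eq_right (Real.log_nonneg ((one_le_div hm0).2 hmx))
  rw [h2] at h1
  exact mul_le_mul_of_nonneg_left h1 ArithmeticFunction.vonMangoldt_nonneg

/-- extension of the range of `psiLog` -/
theorem psiLog_ext (x y : ℝ) (hy : 0 < y) (hyx : y ≤ x) (f : ℕ) (ψ : DirichletCharacter ℂ f) :
    psiLog y f ψ = ∑ n ∈ Icc 1 ⌊x⌋₊, ((ArithmeticFunction.vonMangoldt n : ℝ) : ℂ) *
      ψ (n : ZMod f) * ((L0 (y / n) : ℝ) : ℂ) := by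
  unfold psiLog
  have hsub : Icc 1 ⌊y⌋₊ ⊆ Icc 1 ⌊x⌋₊ := Icc_subset_Icc_right (Nat.floor_le_floor hyx)
  rw [← Finset.sum_subset hsub]
  · refine Finset.sum_congr rfl fun n hn => ?_
    rw [Finset.mem_Icc] at hn
    have hn0 : (0 : ℝ) < n := by exact_mod_cast hn.1
    have hnY : (n : ℝ) ≤ y := (Nat.le_floor_iff hy.le).1 hn.2
    unfold L0
    rw [max_eq_right (Real.log_nonneg ((one_le_div hn0).2 hnY))]
  · intro n hn hn'
    rw [Finset.mem_Icc] at hn hn'
    have hn0 : (0 : ℝ) < n := by exact_mod_cast hn.1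
    have hnY : y < n := by
      by_contra hc
      push Not at hc
      exact hn' ⟨hn.1, (Nat.le_floor_iff hy.le).2 hc⟩
    unfold L0
    rw [max_eq_left (Real.log_nonpos (by positivity) ((div_le_one hn0).2 hnY.le))]
    simp

theorem psiLog1_ext (x y : ℝ) (hy : 0 < y) (hyx : y ≤ x) :
    psiLog1 y = ∑ n ∈ Icc 1 ⌊x⌋₊, ArithmeticFunction.vonMangoldt n * L0 (y / n) := by
  unfold psiLog1
  have hsub : Icc 1 ⌊y⌋₊ ⊆ Icc 1 ⌊x⌋₊ := Icc_subset_Icc_right (Nat.floor_le_floor hyx)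
  rw [← Finset.sum_subset hsub]
  · refine Finset.sum_congr rfl fun n hn => ?_
    rw [Finset.mem_Icc] at hn
    have hn0 : (0 : ℝ) < n := by exact_mod_cast hn.1
    have hnY : (n : ℝ) ≤ y := (Nat.le_floor_iff hy.le).1 hn.2
    unfold L0
    rw [max_eq_right (Real.log_nonneg ((one_le_div hn0).2 hnY))]
  · intro n hn hn'
    rw [Finset.mem_Icc] at hn hn'
    have hn0 : (0 : ℝ) < n := by exact_mod_cast hn.1
    have hnY : y < n := by
      by_contra hc
      push Not at hc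
      exact hn' ⟨hn.1, (Nat.le_floor_iff hy.le).2 hc⟩
    unfold L0
    rw [max_eq_left (Real.log_nonpos (by positivity) ((div_le_one hn0).2 hnY.le))]
    simp

theorem A_al (x : ℝ) (hx : 0 < x) (f : ℕ) (ψ : DirichletCharacter ℂ f) :
    A ⌊x⌋₊ (al x) f ψ = psiLog x f ψ - 2 * psiLog (x / √2) f ψ + psiLog (x / 2) f ψ := by
  have hs2 : (1 : ℝ) ≤ √2 := by
    rw [Real.one_le_sqrt]; norm_num
  rw [psiLog_ext x x hx le_rfl, psiLog_ext x (x / √2) (by positivity) (div_le_self hx.le hs2),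
    psiLog_ext x (x / 2) (by positivity) (by linarith), mul_sum, ← sum_sub_distrib,
    ← sum_add_distrib]
  unfold A
  apply sum_congr rfl
  intro n _
  unfold al tw
  push_cast
  ring

theorem sum_al (x : ℝ) (hx : 0 < x) :
    ∑ m ∈ Icc 1 ⌊x⌋₊, al x m = psiLog1 x - 2 * psiLog1 (x / √2) + psiLog1 (x / 2) := by
  have hs2 : (1 : ℝ) ≤ √2 := by
    rw [Real.one_le_sqrt]; norm_num
  rw [psiLog1_ext x x hx le_rfl, psiLog1_ext x (x / √2) (by positivity) (div_le_self hx.le hs2),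
    psiLog1_ext x (x / 2) (by positivity) (by linarith), mul_sum, ← sum_sub_distrib,
    ← sum_add_distrib]
  apply sum_congr rfl
  intro n _
  unfold al tw
  ring

/-- the total mass -/
theorem mass : ∀ᶠ x : ℝ in atTop, x / 20 ≤ ∑ m ∈ Icc 1 ⌊x⌋₊, al x m := by
  have hs2 : (0 : ℝ) < √2 := by positivity
  have hP : Tendsto (fun X : ℝ => psiLog1 X / X) atTop (𝓝 1) := Pool.Agent.H732R2.pntLog
  have h1 : Tendsto (fun X : ℝ => psiLog1 (X / √2) / (X / √2)) atTop (𝓝 1) :=
    hP.comp (tendsto_id.atTop_div_const hs2)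
  have h2 : Tendsto (fun X : ℝ => psiLog1 (X / 2) / (X / 2)) atTop (𝓝 1) :=
    hP.comp (tendsto_id.atTop_div_const (by norm_num))
  have h3 : Tendsto (fun X : ℝ => psiLog1 X / X - 2 * ((psiLog1 (X / √2) / (X / √2)) * (√2)⁻¹) +
      (psiLog1 (X / 2) / (X / 2)) * 2⁻¹) atTop (𝓝 (1 - 2 * (1 * (√2)⁻¹) + 1 * 2⁻¹)) :=
    (hP.sub ((h1.mul_const _).const_mul 2)).add (h2.mul_const _)
  have h4 : (1 / 20 : ℝ) < 1 - 2 * (1 * (√2)⁻¹) + 1 * 2⁻¹ := by
    have h5 : (√2 : ℝ) * √2 = 2 := Real.mul_self_sqrt (by norm_num)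
    have h6 : 2 * (√2)⁻¹ = √2 := by
      field_simp
      linarith [h5, sq (√2)]
    have h7 : √2 < 1.42 := by
      rw [Real.sqrt_lt' (by norm_num)]; norm_num
    rw [one_mul, h6]
    linarith
  filter_upwards [h3.eventually_const_lt h4, eventually_gt_atTop 0] with x hx hx0
  rw [sum_al x hx0]
  have e1 : psiLog1 x / x - 2 * ((psiLog1 (x / √2) / (x / √2)) * (√2)⁻¹) +
      (psiLog1 (x / 2) / (x / 2)) * 2⁻¹ =
      (psiLog1 x - 2 * psiLog1 (x / √2) + psiLog1 (x / 2)) / x := by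
    field_simp
  rw [e1, lt_div_iff₀ hx0] at hx
  linarith

/-- the mass of the terms not coprime to `g` -/
theorem al_noncop (x : ℝ) (hx : 1 ≤ x) (g : ℕ) (hg : 1 ≤ g) :
    ∑ b ∈ (Icc 1 ⌊x⌋₊).filter (fun b => ¬ b.Coprime g), |al x b| ≤
      2 * Real.log g * Real.log x ^ 2 := by
  have h1 := Pool.Agent.H732R2.B2.err_bound x hx g hg
  have h2 := Pool.Agent.H732R2.B2.omega_log g (by omega)
  calc ∑ b ∈ (Icc 1 ⌊x⌋₊).filter (fun b => ¬ b.Coprime g), |al x b| ≤
      ∑ n ∈ (Icc 1 ⌊x⌋₊).filter (fun n => ¬ n.Coprime g),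
        ArithmeticFunction.vonMangoldt n * Real.log (x / n) := by
        apply sum_le_sum
        intro b hb
        rw [mem_filter, mem_Icc] at hb
        have hbx : (b : ℝ) ≤ x := (Nat.le_floor_iff (by linarith)).1 hb.1.2
        rw [abs_of_nonneg (al_nonneg x (by linarith) b hb.1.1)]
        exact al_le_log x (by linarith) b hb.1.1 hbx
    _ ≤ g.primeFactors.card * Real.log x ^ 2 := h1
    _ ≤ _ := mul_le_mul_of_nonneg_right h2 (by positivity)

theorem al_sq (x : ℝ) (hx : 1 ≤ x) :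
    ∑ b ∈ Icc 1 ⌊x⌋₊, al x b ^ 2 ≤ x * Real.log x ^ 2 := by
  have h0 : 0 ≤ Real.log x := Real.log_nonneg hx
  calc ∑ b ∈ Icc 1 ⌊x⌋₊, al x b ^ 2 ≤ ∑ b ∈ Icc 1 ⌊x⌋₊, Real.log x ^ 2 := by
        apply sum_le_sum
        intro b hb
        rw [mem_Icc] at hb
        have hb0 : (0 : ℝ) < b := by exact_mod_cast hb.1
        have hbx : (b : ℝ) ≤ x := (Nat.le_floor_iff (by linarith)).1 hb.2
        apply pow_le_pow_left₀ (al_nonneg x (by linarith) b hb.1)
        exact (al_le x (by linarith) b hb.1).trans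
          (ArithmeticFunction.vonMangoldt_le_log.trans (Real.log_le_log hb0 hbx))
    _ = ⌊x⌋₊ * Real.log x ^ 2 := by rw [sum_const, nsmul_eq_mul, Nat.card_Icc]; simp
    _ ≤ _ := mul_le_mul_of_nonneg_right (Nat.floor_le (by linarith)) (by positivity)

/-- the mass of the prime powers -/
theorem al_pp (x : ℝ) (hx : 1 ≤ x) :
    ∑ b ∈ (Icc 1 ⌊x⌋₊).filter (fun b => ¬ b.Prime), al x b ≤ 2 * √x * Real.log x := by
  have h1 := Chebyshev.psi_sub_theta_le hx
  rw [Chebyshev.psi_sub_theta_eq_sum_not_prime] at h1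
  refine le_trans ?_ h1
  have e : Icc 1 ⌊x⌋₊ = Ioc 0 ⌊x⌋₊ := by
    ext b; simp only [mem_Icc, mem_Ioc]; omega
  rw [e]
  apply sum_le_sum
  intro b hb
  rw [mem_filter, mem_Ioc] at hb
  exact al_le x (by linarith) b hb.1.1

open Classical in
/-- Bombieri-Vinogradov for the tent weight -/
theorem bv_al (h : BVTotal) (δ : ℝ) (hδ : 0 < δ) (A' : ℕ) : ∀ᶠ x : ℝ in atTop,
    ∀ F0 : ℕ, (F0 : ℝ) ≤ (x / 2) ^ (1 / 2 - δ) → (1 / 2 - δ) ≥ 0 →
    ∑ f ∈ Icc 2 F0, (1 / (Nat.totient f : ℝ)) * PA ⌊x⌋₊ (al x) f ≤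
      4 * x / (Real.log (x / 2)) ^ A' := by
  obtain ⟨X0, hX0⟩ := h 1 le_rfl δ hδ A'
  filter_upwards [eventually_ge_atTop (2 * X0), eventually_ge_atTop 10] with x hx hx10
  intro F0 hF0 hδ2
  have hs2 : (1 : ℝ) ≤ √2 := by
    rw [Real.one_le_sqrt]; norm_num
  have hs22 : √2 ≤ 2 := Real.sqrt_le_iff.2 ⟨by norm_num, by norm_num⟩
  have hx0 : 0 < x := by linarith
  have hl : 0 < Real.log (x / 2) := Real.log_pos (by linarith)
  have key : ∀ y : ℝ, x / 2 ≤ y → y ≤ x → ∑ f ∈ Icc 2 F0, (1 / (Nat.totient f : ℝ)) *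
      ∑ ψ ∈ (univ : Finset (DirichletCharacter ℂ f)).filter (fun ψ => ψ.IsPrimitive),
        ‖psiLog y f ψ‖ ≤ x / (Real.log (x / 2)) ^ A' := by
    intro y hy1 hy2
    have h1 := hX0 y (by linarith)
    have hsub : Icc 2 F0 ⊆ Icc 2 ⌊y ^ (1 / 2 - δ)⌋₊ := by
      apply Icc_subset_Icc_right
      apply Nat.le_floor
      refine hF0.trans ?_
      exact Real.rpow_le_rpow (by linarith) hy1 hδ2
    calc ∑ f ∈ Icc 2 F0, (1 / (Nat.totient f : ℝ)) *
      ∑ ψ ∈ (univ : Finset (DirichletCharacter ℂ f)).filter (fun ψ => ψ.IsPrimitive),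
        ‖psiLog y f ψ‖ ≤ ∑ f ∈ Icc 2 ⌊y ^ (1 / 2 - δ)⌋₊, (1 / (Nat.totient f : ℝ)) *
      ∑ ψ ∈ (univ : Finset (DirichletCharacter ℂ f)).filter (fun ψ => ψ.IsPrimitive),
        ‖psiLog y f ψ‖ := by
          apply sum_le_sum_of_subset_of_nonneg hsub
          intro f _ _
          positivity
      _ = ∑ f ∈ Icc 2 ⌊y ^ (1 / 2 - δ)⌋₊, ((1 : ℝ) ^ f.primeFactors.card /
          (Nat.totient f : ℝ)) *
      ∑ ψ ∈ (univ : Finset (DirichletCharacter ℂ f)).filter (fun ψ => ψ.IsPrimitive),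
        ‖psiLog y f ψ‖ := by
          apply sum_congr rfl
          intro f _
          rw [one_pow]
      _ ≤ y / Real.log y ^ A' := h1
      _ ≤ x / (Real.log (x / 2)) ^ A' := by
          apply div_le_div₀ hx0.le hy2 (by positivity)
          exact pow_le_pow_left₀ hl.le (Real.log_le_log (by linarith) hy1) _
  have k1 := key x (by linarith) le_rfl
  have k2 := key (x / √2) (div_le_div_of_nonneg_left hx0.le (by linarith) hs22)
    (div_le_self hx0.le hs2)
  have k3 := key (x / 2) le_rfl (by linarith)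
  calc ∑ f ∈ Icc 2 F0, (1 / (Nat.totient f : ℝ)) * PA ⌊x⌋₊ (al x) f ≤
      ∑ f ∈ Icc 2 F0, ((1 / (Nat.totient f : ℝ)) *
      ∑ ψ ∈ (univ : Finset (DirichletCharacter ℂ f)).filter (fun ψ => ψ.IsPrimitive),
        ‖psiLog x f ψ‖ + 2 * ((1 / (Nat.totient f : ℝ)) *
      ∑ ψ ∈ (univ : Finset (DirichletCharacter ℂ f)).filter (fun ψ => ψ.IsPrimitive),
        ‖psiLog (x / √2) f ψ‖) + (1 / (Nat.totient f : ℝ)) *
      ∑ ψ ∈ (univ : Finset (DirichletCharacter ℂ f)).filter (fun ψ => ψ.IsPrimitive),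
        ‖psiLog (x / 2) f ψ‖) := by
        apply sum_le_sum
        intro f _
        have h2 : PA ⌊x⌋₊ (al x) f ≤
          ∑ ψ ∈ (univ : Finset (DirichletCharacter ℂ f)).filter (fun ψ => ψ.IsPrimitive),
            ‖psiLog x f ψ‖ + 2 *
          ∑ ψ ∈ (univ : Finset (DirichletCharacter ℂ f)).filter (fun ψ => ψ.IsPrimitive),
            ‖psiLog (x / √2) f ψ‖ +
          ∑ ψ ∈ (univ : Finset (DirichletCharacter ℂ f)).filter (fun ψ => ψ.IsPrimitive),
            ‖psiLog (x / 2) f ψ‖ := by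
          unfold PA
          rw [mul_sum, ← sum_add_distrib, ← sum_add_distrib]
          apply sum_le_sum
          intro ψ _
          rw [A_al x hx0]
          refine (norm_add_le _ _).trans (add_le_add ?_ le_rfl)
          refine (norm_sub_le _ _).trans (add_le_add le_rfl ?_)
          rw [norm_mul]
          simp
        calc (1 / (Nat.totient f : ℝ)) * PA ⌊x⌋₊ (al x) f ≤ (1 / (Nat.totient f : ℝ)) * _ :=
              mul_le_mul_of_nonneg_left h2 (by positivity)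
          _ = _ := by ring
    _ ≤ x / (Real.log (x / 2)) ^ A' + 2 * (x / (Real.log (x / 2)) ^ A') +
        x / (Real.log (x / 2)) ^ A' := by
        rw [sum_add_distrib, sum_add_distrib, ← mul_sum]
        linarith
    _ = _ := by ring

end Pool.Agent.Y882
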