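import Pool.Agent.Y882.Core

/-! Universal lower bound weights of the linear sieve, indexed by integers. -/

set_option autoImplicit false

open Finset Filter

namespace Pool.Agent.Y882

open Pool.Agent.W23.DC

theorem tot_sqf (q : ℕ) (hq : Squarefree q) :
    (Nat.totient q : ℝ) = ∏ p ∈ q.primeFactors, ((p : ℝ) - 1) := by
  have hq0 : q ≠ 0 := hq.ne_zero
  have h3 := Nat.totient_eq_div_primeFactors_mul q
  rw [Nat.prod_primeFactors_of_squarefree hq, Nat.div_self (by omega), one_mul] at h3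
  rw [h3]
  push_cast
  apply prod_congr rfl
  intro p hp
  rw [Nat.cast_sub (Nat.prime_of_mem_primeFactors hp).one_lt.le]
  simp

theorem sqf_prod (T : Finset ℕ) (hT : ∀ p ∈ T, p.Prime) : Squarefree (∏ p ∈ T, p) := by
  refine Finset.squarefree_prod_of_pairwise_isCoprime (fun a ha b hb hab => ?_) (fun l hl => ?_)
  · exact Nat.coprime_iff_isRelPrime.1
      ((Nat.coprime_primes (hT a ha) (hT b hb)).2 hab)
  · exact (hT l hl).prime.irreducible.squarefree

open Classical in
/-- from sets of primes to integers -/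
noncomputable def nw (P : Finset ℕ) (c : Finset ℕ → ℝ) (d : ℕ) : ℝ :=
  if Squarefree d ∧ d.primeFactors ⊆ P then c d.primeFactors else 0

theorem nw_sum (P : Finset ℕ) (hP : ∀ p ∈ P, p.Prime) (c : Finset ℕ → ℝ) (H : ℕ → ℝ)
    (E : Finset ℕ) (hE : ∀ T ⊆ P, c T ≠ 0 → H (∏ p ∈ T, p) ≠ 0 → ∏ p ∈ T, p ∈ E) :
    ∑ T ∈ P.powerset, c T * H (∏ p ∈ T, p) = ∑ d ∈ E, nw P c d * H d := by
  classical
  have h1 : ∑ T ∈ P.powerset, c T * H (∏ p ∈ T, p) =
      ∑ T ∈ P.powerset.filter (fun T => ∏ p ∈ T, p ∈ E), c T * H (∏ p ∈ T, p) := by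
    rw [sum_filter]
    apply sum_congr rfl
    intro T hT
    split_ifs with h
    · rfl
    · by_contra hne
      have h2 := mul_ne_zero_iff.1 hne
      exact h (hE T (mem_powerset.1 hT) h2.1 h2.2)
  have h2 : ∑ d ∈ E, nw P c d * H d =
      ∑ d ∈ E.filter (fun d => Squarefree d ∧ d.primeFactors ⊆ P), c d.primeFactors * H d := by
    rw [sum_filter]
    apply sum_congr rfl
    intro d _
    unfold nw
    split_ifs with h
    · rfl
    · rw [zero_mul]
  rw [h1, h2]
  apply sum_nbij' (i := fun T => ∏ p ∈ T, p) (j := fun d => d.primeFactors)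
  · intro T hT
    rw [mem_filter, mem_powerset] at hT
    rw [mem_filter]
    have hTp : ∀ p ∈ T, p.Prime := fun p hp => hP p (hT.1 hp)
    refine ⟨hT.2, sqf_prod T hTp, ?_⟩
    rw [Nat.primeFactors_prod hTp]
    exact hT.1
  · intro d hd
    rw [mem_filter] at hd
    rw [mem_filter, mem_powerset]
    refine ⟨hd.2.2, ?_⟩
    rw [Nat.prod_primeFactors_of_squarefree hd.2.1]
    exact hd.1
  · intro T hT
    rw [mem_filter, mem_powerset] at hT
    exact Nat.primeFactors_prod fun p hp => hP p (hT.1 hp)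
  · intro d hd
    rw [mem_filter] at hd
    exact Nat.prod_primeFactors_of_squarefree hd.2.1
  · intro T hT
    rw [mem_filter, mem_powerset] at hT
    rw [Nat.primeFactors_prod fun p hp => hP p (hT.1 hp)]

open Classical in
/-- the lower bound weights -/
theorem wts (τ ζ τ' : ℝ) (hζ : 0 < ζ) (h2 : 2 * ζ < τ) (h4 : τ ≤ 4 * ζ) (hτ : τ ≤ 1)
    (h5 : τ < τ') : ∃ c0 : ℝ, 0 < c0 ∧ ∃ Y0 : ℕ, ∀ Y : ℕ, Y0 ≤ Y → ∃ c : ℕ → ℝ,
      (∀ d, |c d| ≤ 5 * Real.log Y) ∧
      (∀ d, c d ≠ 0 → Squarefree d ∧ (d : ℝ) ≤ (Y : ℝ) ^ τ') ∧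
      (∀ N : ℕ, N ≠ 0 → ∑ d ∈ N.divisors, c d ≤
        if ∀ p : ℕ, p.Prime → p ∣ N → (Y : ℝ) ^ ζ ≤ p then 1 else 0) ∧
      ∀ n : ℕ, 1 ≤ n → n ≤ 2 * Y → Even n → c0 / Real.log Y * sgs n ≤
        ∑ d ∈ (Icc 1 ⌊(Y : ℝ) ^ τ'⌋₊).filter (fun d => Nat.Coprime n d),
          c d * (1 / (Nat.totient d : ℝ)) := by
  obtain ⟨c0, hc0, Y0, H⟩ := core1 τ ζ τ' hζ h2 h4 hτ h5
  refine ⟨c0, hc0, max Y0 3, fun Y hY => ?_⟩
  have hY3 : 3 ≤ Y := (le_max_right _ _).trans hY
  have hYr : (3 : ℝ) ≤ Y := by exact_mod_cast hY3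
  have hlY : 0 < Real.log Y := Real.log_pos (by linarith)
  obtain ⟨c, h6, h7, h8, h9⟩ := H Y ((le_max_left _ _).trans hY)
  set P := PZ Y ζ with hP
  have hPp : ∀ p ∈ P, p.Prime := by
    intro p hp
    rw [hP] at hp
    unfold PZ at hp
    rw [mem_filter] at hp
    exact hp.2.1
  -- truncated weights
  set c' : Finset ℕ → ℝ := fun T => if T ⊆ P then c T else 0 with hc'
  have hVVc : ∀ h, VV P c' h = VV P c h := by
    intro h
    apply VV_congr
    intro T hT
    simp only [hc']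
    rw [if_pos hT]
  refine ⟨nw P c, ?_, ?_, ?_, ?_⟩
  · intro d
    unfold nw
    split_ifs
    · exact h6 _
    · rw [abs_zero]; positivity
  · intro d hd
    unfold nw at hd
    split_ifs at hd with h10
    · refine ⟨h10.1, ?_⟩
      have h11 := h7 d.primeFactors h10.2 hd
      rw [Nat.prod_primeFactors_of_squarefree h10.1] at h11
      exact h11
    · exact absurd rfl hd
  · intro N hN
    have h10 := nw_sum P hPp c (fun d => if d ∣ N then 1 else 0) N.divisors (by
      intro T hT _ h11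
      rw [Nat.mem_divisors]
      refine ⟨?_, hN⟩
      by_contra hc
      exact h11 (if_neg hc))
    have h11 : ∑ d ∈ N.divisors, nw P c d * (if d ∣ N then (1 : ℝ) else 0) =
        ∑ d ∈ N.divisors, nw P c d := by
      apply sum_congr rfl
      intro d hd
      rw [if_pos (Nat.dvd_of_mem_divisors hd), mul_one]
    have h12 : VV P c (fun p => if p ∣ N then 1 else 0) =
        ∑ T ∈ P.powerset, c T * (if (∏ p ∈ T, p) ∣ N then (1 : ℝ) else 0) := by
      unfold VV
      apply sum_congr rfl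
      intro T hT
      rw [prod_ind]
      congr 1
      have h1 : (∀ p ∈ T, p ∣ N) ↔ (∏ p ∈ T, p) ∣ N := by
        constructor
        · intro h
          exact Finset.prod_primes_dvd N
            (fun p hp => (hPp p (mem_powerset.1 hT hp)).prime) h
        · intro h p hp
          exact (dvd_prod_of_mem (fun p => p) hp).trans h
      by_cases h2 : ∀ p ∈ T, p ∣ N
      · rw [if_pos h2, if_pos (h1.1 h2)]
      · rw [if_neg h2, if_neg (fun h => h2 (h1.2 h))]
    rw [← h11, ← h10, ← h12]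
    refine (h8 N).trans (le_of_eq ?_)
    have h13 : (∀ p ∈ P, ¬ p ∣ N) ↔ ∀ p : ℕ, p.Prime → p ∣ N → (Y : ℝ) ^ ζ ≤ p := by
      constructor
      · intro h p hp hpN
        by_contra hc
        push Not at hc
        apply h p _ hpN
        rw [hP]
        unfold PZ
        rw [mem_filter, mem_Icc]
        refine ⟨⟨hp.pos, ?_⟩, hp, (tt_lt Y p ζ (by omega) hp.pos).2 hc⟩
        have h14 : (p : ℝ) ≤ Y := by
          refine hc.le.trans ?_
          calc (Y : ℝ) ^ ζ ≤ (Y : ℝ) ^ (1 : ℝ) :=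
                Real.rpow_le_rpow_of_exponent_le (by linarith) (by linarith)
            _ = Y := Real.rpow_one _
        exact_mod_cast h14
      · intro h p hp hpN
        have h14 := h p (hPp p hp) hpN
        rw [hP] at hp
        unfold PZ at hp
        rw [mem_filter] at hp
        have h15 := (tt_lt Y p ζ (by omega) hp.2.1.pos).1 hp.2.2
        linarith
    by_cases h14 : ∀ p ∈ P, ¬ p ∣ N
    · rw [if_pos h14, if_pos (h13.1 h14)]
    · rw [if_neg h14, if_neg (fun h => h14 (h13.2 h))]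
  · intro n hn1 hnY hev
    refine (h9 n hn1 hnY hev).trans (le_of_eq ?_)
    have h10 := nw_sum P hPp c (fun d => if Nat.Coprime n d then 1 / (Nat.totient d : ℝ) else 0)
      ((Icc 1 ⌊(Y : ℝ) ^ τ'⌋₊).filter (fun d => Nat.Coprime n d)) (by
      intro T hT hcT h11
      rw [mem_filter, mem_Icc]
      refine ⟨⟨?_, ?_⟩, ?_⟩
      · refine Nat.pos_of_ne_zero (prod_ne_zero_iff.2 fun p hp => ?_)
        exact (hPp p (hT hp)).ne_zero
      · exact Nat.le_floor (h7 T hT hcT)
      · by_contra hc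
        exact h11 (if_neg hc))
    have h11 : ∑ d ∈ (Icc 1 ⌊(Y : ℝ) ^ τ'⌋₊).filter (fun d => Nat.Coprime n d),
        nw P c d * (if Nat.Coprime n d then 1 / (Nat.totient d : ℝ) else 0) =
        ∑ d ∈ (Icc 1 ⌊(Y : ℝ) ^ τ'⌋₊).filter (fun d => Nat.Coprime n d),
          nw P c d * (1 / (Nat.totient d : ℝ)) := by
      apply sum_congr rfl
      intro d hd
      rw [if_pos (mem_filter.1 hd).2]
    rw [← h11, ← h10]
    unfold VV
    apply sum_congr rfl
    intro T hT
    have hTp : ∀ p ∈ T, p.Prime := fun p hp => hPp p (mem_powerset.1 hT hp)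
    congr 1
    have hpf : (∏ p ∈ T, p).primeFactors = T := Nat.primeFactors_prod hTp
    by_cases h12 : ∃ p ∈ T, p ∣ n
    · obtain ⟨p, hp, hpn⟩ := h12
      rw [prod_eq_zero hp (by unfold gn; rw [if_pos hpn]), if_neg]
      intro hc
      have h13 : p ∣ ∏ p ∈ T, p := dvd_prod_of_mem (fun p => p) hp
      have h14 := Nat.dvd_gcd hpn h13
      rw [hc] at h14
      have := (hTp p hp).one_lt
      have := Nat.le_of_dvd one_pos h14
      omega
    · push Not at h12
      have h13 : Nat.Coprime n (∏ p ∈ T, p) := by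
        apply Nat.Coprime.prod_right
        intro p hp
        exact ((Nat.Prime.coprime_iff_not_dvd (hTp p hp)).2 (h12 p hp)).symm
      rw [if_pos h13, tot_sqf _ (sqf_prod T hTp), hpf, one_div, ← prod_inv_distrib]
      apply prod_congr rfl
      intro p hp
      unfold gn
      rw [if_neg (h12 p hp), one_div]

end Pool.Agent.Y882
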